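import Pool.Agent.H279R2.Tur.Greedy

/-!
# Colliding elements of a map and the covering lemma
-/

namespace Pool.Agent.H279R2.Tur

open Finset

variable {α β : Type*} [DecidableEq α] [DecidableEq β]

/-- the elements of `A` which have the same image under `f` as another element of `A` -/
def core (f : α → β) (A : Finset α) : Finset α :=
  A.filter (fun x => ∃ y ∈ A, y ≠ x ∧ f y = f x)

lemma mem_core {f : α → β} {A : Finset α} {x : α} :
    x ∈ core f A ↔ x ∈ A ∧ ∃ y ∈ A, y ≠ x ∧ f y = f x := by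
  simp [core]

lemma core_subset (f : α → β) (A : Finset α) : core f A ⊆ A := filter_subset _ _

lemma two_mul_card_image_core (f : α → β) (A : Finset α) :
    2 * ((core f A).image f).card ≤ (core f A).card := by
  apply mul_card_image_le_card
  intro b hb
  obtain ⟨x, hx, rfl⟩ := mem_image.1 hb
  obtain ⟨hxA, y, hyA, hyx, hfy⟩ := mem_core.1 hx
  have hy : y ∈ core f A := mem_core.2 ⟨hyA, x, hxA, hyx.symm, hfy.symm⟩
  calc 2 = ({x, y} : Finset α).card := (card_pair hyx.symm).symm
    _ ≤ _ := card_le_card (by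
      intro z hz
      rcases mem_insert.1 hz with rfl | hz
      · exact mem_filter.2 ⟨hx, rfl⟩
      · rw [mem_singleton.1 hz]; exact mem_filter.2 ⟨hy, hfy⟩)

lemma injOn_sdiff_core (f : α → β) (A : Finset α) :
    Set.InjOn f ((A \ core f A : Finset α) : Set α) := by
  intro x hx y hy hxy
  by_contra hne
  have hx' := mem_sdiff.1 (mem_coe.1 hx)
  have hy' := mem_sdiff.1 (mem_coe.1 hy)
  exact hx'.2 (mem_core.2 ⟨hx'.1, y, hy'.1, fun h => hne h.symm, hxy.symm⟩)

lemma exists_rich (f : α → β) (K : Finset α) (t : ℕ) (ht : t ≤ (core f K).card) :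
    ∃ A ⊆ K, A.card = t ∧ t ≤ (core f A).card + 1 := by
  have hne : ((core f K).powersetCard t).Nonempty := powersetCard_nonempty.2 ht
  obtain ⟨A, hA, hmax⟩ := exists_max_image _ (fun A => (core f A).card) hne
  rw [mem_powersetCard] at hA
  refine ⟨A, hA.1.trans (core_subset f K), hA.2, ?_⟩
  by_contra hcon
  push Not at hcon
  have h1 : 1 < (A \ core f A).card := by
    rw [card_sdiff_of_subset (core_subset f A), hA.2]; omega
  obtain ⟨x, hx, y, hy, hxy⟩ := one_lt_card.1 h1
  rw [mem_sdiff] at hx hy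
  obtain ⟨hxK, x', hx'K, hx'x, hfx'⟩ := mem_core.1 (hA.1 hx.1)
  have hx'A : x' ∉ A := fun h => hx.2 (mem_core.2 ⟨hx.1, x', h, hx'x, hfx'⟩)
  have hx'C : x' ∈ core f K := mem_core.2 ⟨hx'K, x, hxK, hx'x.symm, hfx'.symm⟩
  set A' := insert x' (A.erase y) with hA'
  have hA'card : A'.card = t := by
    rw [hA', card_insert_of_notMem (fun h => hx'A (mem_of_mem_erase h)), card_erase_of_mem hy.1,
      hA.2]
    have : 0 < A.card := card_pos.2 ⟨y, hy.1⟩
    omega
  have hA'sub : A' ⊆ core f K := by
    intro z hz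
    rcases mem_insert.1 hz with rfl | hz
    · exact hx'C
    · exact hA.1 (mem_of_mem_erase hz)
  have hxA' : x ∈ A' := mem_insert_of_mem (mem_erase.2 ⟨hxy, hx.1⟩)
  have hx'A' : x' ∈ A' := mem_insert_self _ _
  have hsub : insert x' (insert x (core f A)) ⊆ core f A' := by
    intro z hz
    rcases mem_insert.1 hz with rfl | hz
    · exact mem_core.2 ⟨hx'A', x, hxA', hx'x.symm, hfx'.symm⟩
    rcases mem_insert.1 hz with rfl | hz
    · exact mem_core.2 ⟨hxA', x', hx'A', hx'x, hfx'⟩
    · obtain ⟨hzA, w, hwA, hwz, hfw⟩ := mem_core.1 hz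
      have hzy : z ≠ y := by rintro rfl; exact hy.2 hz
      have hwy : w ≠ y := by
        rintro rfl
        exact hy.2 (mem_core.2 ⟨hwA, z, hzA, hwz.symm, hfw.symm⟩)
      exact mem_core.2 ⟨mem_insert_of_mem (mem_erase.2 ⟨hzy, hzA⟩), w,
        mem_insert_of_mem (mem_erase.2 ⟨hwy, hwA⟩), hwz, hfw⟩
  have hcard : (insert x' (insert x (core f A))).card = (core f A).card + 2 := by
    rw [card_insert_of_notMem, card_insert_of_notMem hx.2]
    intro h
    rcases mem_insert.1 h with h | h
    · exact hx'x h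
    · exact hx'A (core_subset f A h)
  have h2 := card_le_card hsub
  have h3 := hmax A' (mem_powersetCard.2 ⟨hA'sub, hA'card⟩)
  omega

/-- The `t`-sets of the system attached to a map `f` and to covering systems `B`. -/
def Good (t : ℕ) (B : Finset β → ℕ → Finset (Finset β)) (f : α → β) (A : Finset α) : Prop :=
  t ≤ (core f A).card + 1 ∨ (A \ core f A).image f ∈ B ((core f A).image f) (core f A).card

lemma exists_good [Fintype β] {k t : ℕ} (B : Finset β → ℕ → Finset (Finset β))
    (hB : ∀ E h, Cov (univ \ E) (k - h) (t - h) (B E h)) (f : α → β) (K : Finset α)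
    (hK : K.card = k) : ∃ A ⊆ K, A.card = t ∧ Good t B f A := by
  by_cases hC : t ≤ (core f K).card
  · obtain ⟨A, h1, h2, h3⟩ := exists_rich f K t hC
    exact ⟨A, h1, h2, Or.inl h3⟩
  push Not at hC
  set C := core f K with hCdef
  have hCK : C ⊆ K := core_subset f K
  set S := (K \ C).image f with hS
  have hScard : S.card = k - C.card := by
    rw [hS, card_image_of_injOn (injOn_sdiff_core f K), card_sdiff_of_subset hCK, hK]
  have hSE : S ⊆ univ \ C.image f := by
    intro b hb
    obtain ⟨x, hx, rfl⟩ := mem_image.1 hb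
    rw [mem_sdiff] at hx ⊢
    refine ⟨mem_univ _, fun h => ?_⟩
    obtain ⟨y, hy, hfy⟩ := mem_image.1 h
    have hyx : y ≠ x := by rintro rfl; exact hx.2 hy
    exact hx.2 (mem_core.2 ⟨hx.1, y, hCK hy, hyx, hfy⟩)
  obtain ⟨B', hB', hB'S⟩ := (hB (C.image f) C.card).2 S hSE hScard
  have hB'card : B'.card = t - C.card := ((hB (C.image f) C.card).1 B' hB').2
  set D := (K \ C).filter (fun x => f x ∈ B') with hD
  have hDim : D.image f = B' := by
    ext b
    constructor
    · intro hb
      obtain ⟨x, hx, rfl⟩ := mem_image.1 hb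
      exact (mem_filter.1 hx).2
    · intro hb
      obtain ⟨x, hx, rfl⟩ := mem_image.1 (hB'S hb)
      exact mem_image_of_mem _ (mem_filter.2 ⟨hx, hb⟩)
  have hDsub : D ⊆ K \ C := filter_subset _ _
  have hDcard : D.card = t - C.card := by
    rw [← hB'card, ← hDim, card_image_of_injOn]
    exact (injOn_sdiff_core f K).mono (by exact_mod_cast hDsub)
  have hdisj : Disjoint C D := by
    rw [disjoint_left]
    intro x hx hxD
    exact (mem_sdiff.1 (hDsub hxD)).2 hx
  have hcore : core f (C ∪ D) = C := by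
    ext x
    constructor
    · intro hx
      obtain ⟨hxA, y, hyA, hyx, hfy⟩ := mem_core.1 hx
      have hAK : C ∪ D ⊆ K := union_subset hCK (hDsub.trans sdiff_subset)
      exact mem_core.2 ⟨hAK hxA, y, hAK hyA, hyx, hfy⟩
    · intro hx
      obtain ⟨hxK, y, hyK, hyx, hfy⟩ := mem_core.1 hx
      have hyC : y ∈ C := mem_core.2 ⟨hyK, x, hxK, hyx.symm, hfy.symm⟩
      exact mem_core.2 ⟨mem_union_left _ hx, y, mem_union_left _ hyC, hyx, hfy⟩
  refine ⟨C ∪ D, union_subset hCK (hDsub.trans sdiff_subset), ?_, Or.inr ?_⟩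
  · rw [card_union_of_disjoint hdisj, hDcard]; omega
  · rw [hcore, union_sdiff_cancel_left hdisj, hDim]
    exact hB'

end Pool.Agent.H279R2.Tur
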