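import Pool.Agent.H279R2.Tur.Core

/-!
# Counting the maps for which a given set is good
-/

namespace Pool.Agent.H279R2.Tur

open Finset Nat

lemma prod_ite_card {n : ℕ} (A : Finset (Fin n)) (b m : ℕ) :
    (∏ x : Fin n, (if x ∈ A then b else m)) = b ^ A.card * m ^ (n - A.card) := by
  rw [prod_ite, prod_const, prod_const]
  congr 2
  · simp
  · have : (univ : Finset (Fin n)).filter (fun x => x ∉ A) = Aᶜ := by ext; simp
    rw [this, card_compl, Fintype.card_fin]

lemma count1 (n m b : ℕ) (hb : b ≤ m) (A : Finset (Fin n)) :
    ((univ : Finset (Fin n → Fin m)).filter (fun f => (A.image f).card ≤ b)).card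
      ≤ m.choose b * (b ^ A.card * m ^ (n - A.card)) := by
  classical
  calc ((univ : Finset (Fin n → Fin m)).filter (fun f => (A.image f).card ≤ b)).card
      ≤ (((univ : Finset (Fin m)).powersetCard b).biUnion
          (fun E => Fintype.piFinset (fun x => if x ∈ A then E else univ))).card := by
        apply card_le_card
        intro f hf
        have hf' := (mem_filter.1 hf).2
        obtain ⟨E, hE, hEc⟩ := Finset.exists_superset_card_eq (s := A.image f) (n := b) hf'
          (by simpa using hb)
        refine mem_biUnion.2 ⟨E, mem_powersetCard.2 ⟨subset_univ _, hEc⟩, ?_⟩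
        rw [Fintype.mem_piFinset]
        intro x
        by_cases hx : x ∈ A
        · simp only [hx, if_true]; exact hE (mem_image_of_mem _ hx)
        · simp [hx]
    _ ≤ ∑ E ∈ (univ : Finset (Fin m)).powersetCard b,
          (Fintype.piFinset (fun x => if x ∈ A then E else univ)).card := card_biUnion_le
    _ = ∑ E ∈ (univ : Finset (Fin m)).powersetCard b, (b ^ A.card * m ^ (n - A.card)) := by
        apply sum_congr rfl
        intro E hE
        rw [Fintype.card_piFinset, ← prod_ite_card]
        apply prod_congr rfl
        intro x _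
        by_cases hx : x ∈ A
        · simp [hx, (mem_powersetCard.1 hE).2]
        · simp [hx]
    _ = m.choose b * (b ^ A.card * m ^ (n - A.card)) := by
        rw [sum_const, card_powersetCard]; simp

lemma count_image {n : ℕ} {β : Type*} [DecidableEq β] [Fintype β] (S : Finset (Fin n)) :
    ∀ (P : Fin n → Finset β) (B : Finset β), B.card = S.card →
    ((Fintype.piFinset P).filter (fun f => S.image f = B)).card
      ≤ S.card.factorial * ∏ x ∈ Sᶜ, (P x).card := by
  classical
  induction S using Finset.induction_on with
  | empty =>
    intro P B _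
    simp only [card_empty, factorial_zero, one_mul, compl_empty]
    refine (card_filter_le _ _).trans (le_of_eq ?_)
    rw [Fintype.card_piFinset]
  | insert a S ha ih =>
    intro P B hB
    rw [card_insert_of_notMem ha] at hB
    calc ((Fintype.piFinset P).filter (fun f => (insert a S).image f = B)).card
        ≤ (B.biUnion (fun b => (Fintype.piFinset (Function.update P a {b})).filter
            (fun f => S.image f = B.erase b))).card := by
          apply card_le_card
          intro f hf
          obtain ⟨hfP, hfB⟩ := mem_filter.1 hf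
          rw [image_insert] at hfB
          have hnot : f a ∉ S.image f := by
            intro h
            rw [insert_eq_of_mem h] at hfB
            have := Finset.card_image_le (s := S) (f := f)
            rw [hfB] at this
            omega
          refine mem_biUnion.2 ⟨f a, ?_, mem_filter.2 ⟨?_, ?_⟩⟩
          · rw [← hfB]; exact mem_insert_self _ _
          · rw [Fintype.mem_piFinset] at hfP ⊢
            intro x
            by_cases hx : x = a
            · subst hx; simp
            · rw [Function.update_of_ne hx]; exact hfP x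
          · rw [← hfB, erase_insert hnot]
      _ ≤ ∑ b ∈ B, ((Fintype.piFinset (Function.update P a {b})).filter
            (fun f => S.image f = B.erase b)).card := card_biUnion_le
      _ ≤ ∑ b ∈ B, S.card.factorial * ∏ x ∈ (insert a S)ᶜ, (P x).card := by
          apply sum_le_sum
          intro b hb
          refine (ih (Function.update P a {b}) (B.erase b) ?_).trans (le_of_eq ?_)
          · rw [card_erase_of_mem hb, hB]; rfl
          · congr 1
            have hSc : Sᶜ = insert a ((insert a S)ᶜ) := by
              ext x
              simp only [mem_compl, mem_insert]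
              by_cases hx : x = a
              · subst hx; simp [ha]
              · simp [hx]
            rw [hSc, prod_insert (by simp)]
            simp only [Function.update_self, card_singleton, one_mul]
            apply prod_congr rfl
            intro x hx
            have : x ≠ a := by rintro rfl; simp at hx
            rw [Function.update_of_ne this]
      _ = (insert a S).card.factorial * ∏ x ∈ (insert a S)ᶜ, (P x).card := by
          rw [sum_const, smul_eq_mul, hB, card_insert_of_notMem ha, Nat.factorial_succ, mul_assoc]

lemma count2 (n m t : ℕ) (A : Finset (Fin n)) (hA : A.card = t) (H : Finset (Fin n))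
    (hH : H ⊆ A) (B : Finset (Fin m) → ℕ → Finset (Finset (Fin m)))
    (hB : ∀ E h, ∀ B' ∈ B E h, B'.card = t - h) :
    ((univ : Finset (Fin n → Fin m)).filter
      (fun f => core f A = H ∧ (A \ H).image f ∈ B (H.image f) H.card)).card ≤
    ∑ E ∈ (univ : Finset (Fin m)).powerset,
      (if 2 * E.card ≤ H.card then
        (B E H.card).card * ((t - H.card).factorial * (E.card ^ H.card * m ^ (n - t))) else 0) := by
  classical
  have hAH : (A \ H).card = t - H.card := by rw [card_sdiff_of_subset hH, hA]
  rw [← sum_filter]
  calc ((univ : Finset (Fin n → Fin m)).filter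
        (fun f => core f A = H ∧ (A \ H).image f ∈ B (H.image f) H.card)).card
      ≤ (((univ : Finset (Fin m)).powerset.filter (fun E => 2 * E.card ≤ H.card)).biUnion
          (fun E => (B E H.card).biUnion (fun B' =>
            (Fintype.piFinset (fun x => if x ∈ H then E else univ)).filter
              (fun f => (A \ H).image f = B')))).card := by
        apply card_le_card
        intro f hf
        obtain ⟨-, hcore, hmem⟩ := mem_filter.1 hf
        refine mem_biUnion.2 ⟨H.image f, ?_, mem_biUnion.2 ⟨_, hmem, ?_⟩⟩
        · refine mem_filter.2 ⟨mem_powerset.2 (subset_univ _), ?_⟩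
          have := two_mul_card_image_core f A
          rwa [hcore] at this
        · refine mem_filter.2 ⟨?_, rfl⟩
          rw [Fintype.mem_piFinset]
          intro x
          by_cases hx : x ∈ H
          · simp only [hx, if_true]; exact mem_image_of_mem _ hx
          · simp [hx]
    _ ≤ ∑ E ∈ (univ : Finset (Fin m)).powerset.filter (fun E => 2 * E.card ≤ H.card),
          ((B E H.card).biUnion (fun B' =>
            (Fintype.piFinset (fun x => if x ∈ H then E else univ)).filter
              (fun f => (A \ H).image f = B'))).card := card_biUnion_le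
    _ ≤ _ := by
        apply sum_le_sum
        intro E _
        refine card_biUnion_le.trans ?_
        calc ∑ B' ∈ B E H.card,
              ((Fintype.piFinset (fun x => if x ∈ H then E else univ)).filter
                (fun f => (A \ H).image f = B')).card
            ≤ ∑ B' ∈ B E H.card,
                ((t - H.card).factorial * (E.card ^ H.card * m ^ (n - t))) := by
              apply sum_le_sum
              intro B' hB'
              have h1 := count_image (A \ H)
                (fun x => if x ∈ H then E else (univ : Finset (Fin m))) B'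
                (by rw [hB E H.card B' hB', hAH])
              refine h1.trans (le_of_eq ?_)
              rw [hAH]
              congr 1
              have hcompl : (A \ H)ᶜ = H ∪ Aᶜ := by
                ext x
                simp only [mem_compl, mem_sdiff, mem_union]
                tauto
              have hdisj : Disjoint H Aᶜ := by
                rw [disjoint_left]
                intro x hx hx'
                exact (mem_compl.1 hx') (hH hx)
              rw [hcompl, prod_union hdisj]
              congr 1
              · rw [← prod_const]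
                apply prod_congr rfl
                intro x hx
                simp [hx]
              · have : ∀ x ∈ Aᶜ, ((fun x => if x ∈ H then E else (univ : Finset (Fin m))) x).card
                    = m := by
                  intro x hx
                  have : x ∉ H := fun h => (mem_compl.1 hx) (hH h)
                  simp [this]
                rw [prod_congr rfl this, prod_const, card_compl, Fintype.card_fin, hA]
          _ = (B E H.card).card *
                ((t - H.card).factorial * (E.card ^ H.card * m ^ (n - t))) := by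
              rw [sum_const, smul_eq_mul]

/-- the weighted number of possible image sets of a core of size `h` -/
def Sh (m h : ℕ) : ℕ :=
  ∑ E ∈ (univ : Finset (Fin m)).powerset, (if 2 * E.card ≤ h then E.card ^ h else 0)

lemma Sh_eq (m h : ℕ) :
    Sh m h = ∑ e ∈ range (m + 1), m.choose e * (if 2 * e ≤ h then e ^ h else 0) := by
  unfold Sh
  have := Finset.sum_powerset_apply_card (fun e => if 2 * e ≤ h then e ^ h else 0)
    (x := (univ : Finset (Fin m)))
  simpa using this

lemma Sh_zero (m : ℕ) : Sh m 0 = 1 := by
  rw [Sh_eq, sum_eq_single 0]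
  · simp
  · intro e _ he
    have : ¬ (2 * e ≤ 0) := by omega
    simp [this]
  · intro h; simp at h

lemma Sh_one (m : ℕ) : Sh m 1 = 0 := by
  rw [Sh_eq]
  apply sum_eq_zero
  intro e _
  by_cases he : 2 * e ≤ 1
  · have : e = 0 := by omega
    subst this; simp
  · simp [he]

lemma geom_le (m : ℕ) (hm : 2 ≤ m) (b : ℕ) : ∑ e ∈ range (b + 1), m ^ e ≤ 2 * m ^ b := by
  induction b with
  | zero => simp
  | succ b ih =>
    rw [sum_range_succ]
    have : 2 * m ^ b ≤ m ^ (b + 1) := by
      rw [pow_succ, mul_comm]; exact Nat.mul_le_mul_left _ hm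
    omega

lemma Sh_le (m h : ℕ) (hm : 2 ≤ m) : Sh m h ≤ 2 * m ^ (h / 2) * (h / 2) ^ h := by
  rw [Sh_eq]
  calc ∑ e ∈ range (m + 1), m.choose e * (if 2 * e ≤ h then e ^ h else 0)
      ≤ ∑ e ∈ range (m + 1), (if 2 * e ≤ h then m ^ e * (h / 2) ^ h else 0) := by
        apply sum_le_sum
        intro e _
        by_cases he : 2 * e ≤ h
        · simp only [he, if_true]
          exact Nat.mul_le_mul (Nat.choose_le_pow _ _) (Nat.pow_le_pow_left (by omega) _)
        · simp [he]
    _ = ∑ e ∈ (range (m + 1)).filter (fun e => 2 * e ≤ h), m ^ e * (h / 2) ^ h := by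
        rw [sum_filter]
    _ ≤ ∑ e ∈ range (h / 2 + 1), m ^ e * (h / 2) ^ h := by
        apply sum_le_sum_of_subset
        intro e he
        have := (mem_filter.1 he).2
        rw [mem_range]; omega
    _ = (∑ e ∈ range (h / 2 + 1), m ^ e) * (h / 2) ^ h := by rw [sum_mul]
    _ ≤ 2 * m ^ (h / 2) * (h / 2) ^ h := Nat.mul_le_mul_right _ (geom_le m hm _)

lemma key_h (k h : ℕ) (hh : 2 ≤ h) (hhk : h ≤ k) :
    k.choose h * Sh (k ^ 4) h * 2 ^ h ≤ (k ^ 4) ^ h := by
  have hk : 2 ≤ k := le_trans hh hhk
  have h1 : Sh (k ^ 4) h ≤ 2 * (k ^ 4) ^ (h / 2) * (h / 2) ^ h :=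
    Sh_le _ _ (le_trans hk (Nat.le_self_pow (by norm_num) k))
  have h2 : k.choose h * 2 ≤ k ^ h := by
    have h3 : k.choose h * h.factorial ≤ k ^ h := by
      rw [mul_comm, ← Nat.descFactorial_eq_factorial_mul_choose]
      exact Nat.descFactorial_le_pow _ _
    have h4 : 2 ≤ h.factorial := by
      calc 2 = (2 : ℕ).factorial := by decide
        _ ≤ h.factorial := Nat.factorial_le hh
    exact (Nat.mul_le_mul_left _ h4).trans h3
  have h5 : (k ^ 4) ^ (h / 2) ≤ k ^ (2 * h) := by
    rw [← pow_mul]
    exact Nat.pow_le_pow_right (by omega) (by omega)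
  have h6 : (h / 2) ^ h * 2 ^ h ≤ k ^ h := by
    rw [← mul_pow]
    exact Nat.pow_le_pow_left (by omega) _
  calc k.choose h * Sh (k ^ 4) h * 2 ^ h
      ≤ k.choose h * (2 * (k ^ 4) ^ (h / 2) * (h / 2) ^ h) * 2 ^ h := by gcongr
    _ = (k.choose h * 2) * (k ^ 4) ^ (h / 2) * ((h / 2) ^ h * 2 ^ h) := by ring
    _ ≤ k ^ h * k ^ (2 * h) * k ^ h := by gcongr
    _ = (k ^ 4) ^ h := by rw [← pow_mul, ← pow_add, ← pow_add]; congr 1; ring

lemma aux_fact (t : ℕ) (ht : 2 ≤ t) : (t + 1) ^ 2 ≤ 2 ^ (t + 1) * t.factorial := by
  induction t, ht using Nat.le_induction with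
  | base => decide
  | succ t ht ih =>
    calc (t + 1 + 1) ^ 2 ≤ 2 * (t + 1) * (t + 1) ^ 2 := by nlinarith [Nat.zero_le t]
      _ ≤ 2 * (t + 1) * (2 ^ (t + 1) * t.factorial) := Nat.mul_le_mul_left _ ih
      _ = 2 ^ (t + 1 + 1) * (t + 1).factorial := by
          rw [Nat.factorial_succ, pow_succ 2 (t + 1)]; ring

lemma key_rich (k t : ℕ) (ht : 2 ≤ t) (htk : t < k) :
    (k ^ 4).choose ((t + 1) / 2) * ((t + 1) / 2) ^ t * k.choose t ≤ 2 * (k ^ 4) ^ t := by
  set b := (t + 1) / 2 with hb
  have hk : 0 < k := by omega
  have h1 : (k ^ 4).choose b ≤ (k ^ 4) ^ b := Nat.choose_le_pow _ _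
  have h2 : b ^ t * k.choose t ≤ 2 * k ^ (2 * t - 2) := by
    have h3 : t.factorial * k.choose t ≤ k ^ t := by
      rw [← Nat.descFactorial_eq_factorial_mul_choose]
      exact Nat.descFactorial_le_pow _ _
    have h4 : b ^ t * 2 ^ t ≤ (t + 1) ^ t := by
      rw [← mul_pow]; exact Nat.pow_le_pow_left (by omega) _
    have h5 : (t + 1) ^ t ≤ 2 ^ (t + 1) * t.factorial * k ^ (t - 2) := by
      calc (t + 1) ^ t = (t + 1) ^ 2 * (t + 1) ^ (t - 2) := by
            rw [← pow_add]; congr 1; omega
        _ ≤ 2 ^ (t + 1) * t.factorial * k ^ (t - 2) :=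
            Nat.mul_le_mul (aux_fact t ht) (Nat.pow_le_pow_left (by omega) _)
    have hpos : 0 < 2 ^ t * t.factorial := by positivity
    refine Nat.le_of_mul_le_mul_left ?_ hpos
    calc 2 ^ t * t.factorial * (b ^ t * k.choose t)
        = (b ^ t * 2 ^ t) * (t.factorial * k.choose t) := by ring
      _ ≤ (t + 1) ^ t * k ^ t := Nat.mul_le_mul h4 h3
      _ ≤ (2 ^ (t + 1) * t.factorial * k ^ (t - 2)) * k ^ t := Nat.mul_le_mul_right _ h5
      _ = 2 ^ t * t.factorial * (2 * (k ^ (t - 2) * k ^ t)) := by ring
      _ = 2 ^ t * t.factorial * (2 * k ^ (2 * t - 2)) := by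
          rw [← pow_add]; congr 3; omega
  calc (k ^ 4).choose b * b ^ t * k.choose t
      = (k ^ 4).choose b * (b ^ t * k.choose t) := by ring
    _ ≤ (k ^ 4) ^ b * (2 * k ^ (2 * t - 2)) := Nat.mul_le_mul h1 h2
    _ ≤ (k ^ 4) ^ b * (2 * (k ^ 4) ^ (t - b)) := by
        refine Nat.mul_le_mul_left _ (Nat.mul_le_mul_left _ ?_)
        rw [← pow_mul]
        exact Nat.pow_le_pow_right hk (by omega)
    _ = 2 * (k ^ 4) ^ t := by
        have : (k ^ 4) ^ t = (k ^ 4) ^ b * (k ^ 4) ^ (t - b) := by
          rw [← pow_add]; congr 1; omega
        rw [this]; ring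

end Pool.Agent.H279R2.Tur
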