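import Pool.Agent.H279R2.Tur.Solve

/-!
# Disjoint unions and the final bound
-/

namespace Pool.Agent.H279R2.Tur

open Finset Nat

lemma count_const {n : ℕ} (l : ℕ) (i : Fin l) (A : Finset (Fin n)) :
    ((univ : Finset (Fin n → Fin l)).filter (fun g => ∀ x ∈ A, g x = i)).card
      = l ^ (n - A.card) := by
  classical
  have h1 : (univ : Finset (Fin n → Fin l)).filter (fun g => ∀ x ∈ A, g x = i) =
      Fintype.piFinset (fun x => if x ∈ A then ({i} : Finset (Fin l)) else univ) := by
    ext g
    simp only [mem_filter, mem_univ, true_and, Fintype.mem_piFinset]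
    constructor
    · intro h x
      by_cases hx : x ∈ A
      · simp [hx, h x hx]
      · simp [hx]
    · intro h x hx
      have := h x
      simpa [hx] using this
  rw [h1, Fintype.card_piFinset]
  have h2 : ∀ x : Fin n, (if x ∈ A then ({i} : Finset (Fin l)) else univ).card =
      if x ∈ A then 1 else l := by
    intro x
    by_cases hx : x ∈ A <;> simp [hx]
  rw [prod_congr rfl (fun x _ => h2 x), prod_ite_card]
  simp

lemma exists_partition (n l t : ℕ) (hl : 1 ≤ l) (ht : 1 ≤ t) (V : Finset (Fin n)) :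
    ∃ g : Fin n → Fin l, (∑ i : Fin l, (V.filter (fun x => g x = i)).card.choose t) * l ^ (t - 1)
      ≤ V.card.choose t := by
  classical
  by_contra hcon
  push Not at hcon
  have hne : (univ : Finset (Fin n → Fin l)).Nonempty := by
    have : Nonempty (Fin l) := ⟨⟨0, hl⟩⟩
    exact univ_nonempty
  have hlt := sum_lt_sum_of_nonempty hne (fun g _ => hcon g)
  rw [sum_const, Finset.card_univ, ← sum_mul] at hlt
  have h1 : ∑ g : Fin n → Fin l, ∑ i : Fin l, (V.filter (fun x => g x = i)).card.choose t
      = ∑ i : Fin l, ∑ A ∈ V.powersetCard t, l ^ (n - A.card) := by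
    rw [sum_comm]
    apply sum_congr rfl
    intro i _
    have h2 : ∀ g : Fin n → Fin l, (V.filter (fun x => g x = i)).card.choose t =
        ((V.powersetCard t).filter (fun A => ∀ x ∈ A, g x = i)).card := by
      intro g
      rw [← card_powersetCard]
      congr 1
      ext A
      simp only [mem_powersetCard, mem_filter, subset_iff]
      constructor
      · rintro ⟨h, h'⟩
        exact ⟨⟨fun x hx => (h hx).1, h'⟩, fun x hx => (h hx).2⟩
      · rintro ⟨⟨h, h'⟩, h''⟩
        exact ⟨fun x hx => ⟨h hx, h'' x hx⟩, h'⟩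
    rw [sum_congr rfl (fun g _ => h2 g)]
    have h3 := Finset.sum_card_bipartiteAbove_eq_sum_card_bipartiteBelow
      (s := (univ : Finset (Fin n → Fin l))) (t := V.powersetCard t)
      (fun g A => ∀ x ∈ A, g x = i)
    simp only [Finset.bipartiteAbove, Finset.bipartiteBelow] at h3
    rw [h3]
    apply sum_congr rfl
    intro A _
    exact count_const l i A
  rw [h1] at hlt
  simp only [Fintype.card_fun, Fintype.card_fin, smul_eq_mul, sum_const, Finset.card_univ] at hlt
  by_cases hv : V.card < t
  · have h4 : V.powersetCard t = ∅ := powersetCard_eq_empty.2 hv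
    rw [h4, Nat.choose_eq_zero_of_lt hv] at hlt
    simp at hlt
  · push Not at hv
    have htn : t ≤ n := by
      calc t ≤ V.card := hv
        _ ≤ (univ : Finset (Fin n)).card := card_le_card (subset_univ _)
        _ = n := by simp
    have h5 : ∑ A ∈ V.powersetCard t, l ^ (n - A.card) = V.card.choose t * l ^ (n - t) := by
      rw [sum_congr rfl (fun A hA => by rw [(mem_powersetCard.1 hA).2]), sum_const,
        card_powersetCard, smul_eq_mul]
    rw [h5] at hlt
    have h6 : l * (V.card.choose t * l ^ (n - t)) * l ^ (t - 1) = l ^ n * V.card.choose t := by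
      have h7 : l ^ n = l * l ^ (n - t) * l ^ (t - 1) := by
        have h8 : l * l ^ (n - t) * l ^ (t - 1) = l ^ (1 + (n - t) + (t - 1)) := by
          rw [pow_add, pow_add, pow_one]
        rw [h8]; congr 1; omega
      rw [h7]; ring
    omega

lemma union_cov (n k t l α : ℕ) (hl : 1 ≤ l) (ht : 1 ≤ t) (hlk : l * α < k) (c : ℝ)
    (hc : 0 ≤ c)
    (hP : ∀ V : Finset (Fin n), ∃ F, Cov V (α + 1) t F ∧ (F.card : ℝ) ≤ c * V.card.choose t)
    (V : Finset (Fin n)) :
    ∃ F, Cov V k t F ∧ (F.card : ℝ) * (l : ℝ) ^ (t - 1) ≤ c * V.card.choose t := by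
  classical
  obtain ⟨g, hg⟩ := exists_partition n l t hl ht V
  choose F hF hFc using (fun i : Fin l => hP (V.filter (fun x => g x = i)))
  refine ⟨univ.biUnion F, ⟨?_, ?_⟩, ?_⟩
  · intro A hA
    obtain ⟨i, -, hi⟩ := mem_biUnion.1 hA
    have := (hF i).1 A hi
    exact ⟨this.1.trans (filter_subset _ _), this.2⟩
  · intro K hKV hKc
    have hpig : ∃ i ∈ (univ : Finset (Fin l)), α < (K.filter (fun x => g x = i)).card := by
      apply Finset.exists_lt_card_fiber_of_mul_lt_card_of_maps_to
      · intro x _; exact mem_univ _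
      · simpa [hKc] using hlk
    obtain ⟨i, -, hi⟩ := hpig
    obtain ⟨K', hK', hK'c⟩ := exists_subset_card_eq
      (s := K.filter (fun x => g x = i)) (n := α + 1) hi
    obtain ⟨A, hA, hAK⟩ := (hF i).2 K' (hK'.trans (filter_subset_filter _ hKV)) hK'c
    exact ⟨A, mem_biUnion.2 ⟨i, mem_univ _, hA⟩, hAK.trans (hK'.trans (filter_subset _ _))⟩
  · have h1 : ((univ.biUnion F).card : ℝ) ≤
        c * ∑ i : Fin l, ((V.filter (fun x => g x = i)).card.choose t : ℝ) := by
      calc ((univ.biUnion F).card : ℝ) ≤ ∑ i : Fin l, ((F i).card : ℝ) := by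
            exact_mod_cast card_biUnion_le
        _ ≤ ∑ i : Fin l, c * ((V.filter (fun x => g x = i)).card.choose t : ℝ) :=
            sum_le_sum (fun i _ => hFc i)
        _ = _ := by rw [mul_sum]
    have h2 : (∑ i : Fin l, ((V.filter (fun x => g x = i)).card.choose t : ℝ)) *
        (l : ℝ) ^ (t - 1) ≤ V.card.choose t := by exact_mod_cast hg
    calc ((univ.biUnion F).card : ℝ) * (l : ℝ) ^ (t - 1)
        ≤ (c * ∑ i : Fin l, ((V.filter (fun x => g x = i)).card.choose t : ℝ)) *
            (l : ℝ) ^ (t - 1) := mul_le_mul_of_nonneg_right h1 (by positivity)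
      _ = c * ((∑ i : Fin l, ((V.filter (fun x => g x = i)).card.choose t : ℝ)) *
            (l : ℝ) ^ (t - 1)) := by ring
      _ ≤ c * V.card.choose t := mul_le_mul_of_nonneg_left h2 hc

lemma muR_nonneg (R : ℕ) : 0 ≤ muR R := by
  unfold muR
  have : 0 ≤ Real.log ((R : ℝ) + 1) := by
    have := Real.log_natCast_nonneg (R + 1)
    simpa using this
  positivity

/-- first form -/
theorem bound_one (n k t : ℕ) (htk : t < k) (V : Finset (Fin n)) :
    ∃ F, Cov V k t F ∧ (F.card : ℝ) * k.choose t ≤ muR (k - t) * V.card.choose t := by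
  obtain ⟨F, hF, hc⟩ := P_all (k - t) t (by omega) n V
  have h1 : t + (k - t) = k := by omega
  rw [h1] at hF hc
  refine ⟨F, hF, ?_⟩
  rw [← Nat.choose_symm htk.le]
  exact hc

lemma choose_id (k t : ℕ) (ht : 1 ≤ t) (hk : 1 ≤ k) :
    (k.choose t : ℝ) * t = k * (k - 1).choose (t - 1) := by
  have h := Nat.add_one_mul_choose_eq (k - 1) (t - 1)
  have h1 : k - 1 + 1 = k := by omega
  have h2 : t - 1 + 1 = t := by omega
  rw [h1, h2] at h
  exact_mod_cast h.symm

lemma log_bound (t R : ℕ) (ht : 1 ≤ t) (hR : R + 1 ≤ 8 * t ^ 2 + 1) :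
    Real.log (R + 1) ≤ 4 * Real.log (t + 1) := by
  have htr : (1 : ℝ) ≤ t := by exact_mod_cast ht
  have h1 : ((R : ℝ) + 1) ≤ 8 * (t : ℝ) ^ 2 + 1 := by exact_mod_cast hR
  have h2 : 8 * (t : ℝ) ^ 2 + 1 ≤ ((t : ℝ) + 1) ^ 4 := by
    have e : ((t : ℝ) + 1) ^ 4 = (t : ℝ) ^ 4 + 4 * (t : ℝ) ^ 3 + 6 * (t : ℝ) ^ 2 + 4 * t + 1 := by
      ring
    rw [e]
    have h3 : (t : ℝ) ^ 2 ≤ (t : ℝ) ^ 3 := pow_le_pow_right₀ htr (by norm_num)
    have h4 : 0 ≤ (t : ℝ) ^ 4 := by positivity
    nlinarith
  calc Real.log (R + 1) ≤ Real.log (((t : ℝ) + 1) ^ 4) :=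
        Real.log_le_log (by positivity) (h1.trans h2)
    _ = 4 * Real.log (t + 1) := by rw [Real.log_pow]; norm_num

/-- second form -/
theorem bound_two (n k t : ℕ) (ht : 1 ≤ t) (htk : t < k) (V : Finset (Fin n)) :
    ∃ F, Cov V k t F ∧ (F.card : ℝ) * (k - 1).choose (t - 1) ≤
      600 * (min t (k - t) : ℕ) * Real.log ((min t (k - t) : ℕ) + 1) * V.card.choose t := by
  have htr : (1 : ℝ) ≤ t := by exact_mod_cast ht
  have hV0 : (0 : ℝ) ≤ V.card.choose t := by positivity
  rcases Nat.lt_or_ge t (k - t) with hR | hR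
  swap
  · -- `k - t ≤ t`
    obtain ⟨F, hF, hc⟩ := bound_one n k t htk V
    refine ⟨F, hF, ?_⟩
    have h1 : (F.card : ℝ) * (k - 1).choose (t - 1) ≤ (F.card : ℝ) * k.choose t := by
      refine mul_le_mul_of_nonneg_left ?_ (by positivity)
      have h2 : (k - 1).choose (t - 1) ≤ k.choose t := by
        have h3 : k = (k - 1) + 1 := by omega
        have h4 : t = (t - 1) + 1 := by omega
        conv_rhs => rw [h3, h4]
        rw [Nat.choose_succ_succ]; omega
      exact_mod_cast h2
    refine (h1.trans hc).trans ?_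
    rw [min_eq_right hR]
    refine mul_le_mul_of_nonneg_right ?_ hV0
    have h5 := muR_nonneg (k - t)
    unfold muR at h5 ⊢
    linarith
  rw [min_eq_left hR.le]
  have hlogt : 0 < Real.log ((t : ℝ) + 1) := Real.log_pos (by linarith)
  rcases Nat.lt_or_ge (8 * t ^ 2 + 1) k with hk | hk
  swap
  · -- `k ≤ 8 t^2 + 1`
    obtain ⟨F, hF, hc⟩ := bound_one n k t htk V
    refine ⟨F, hF, ?_⟩
    have hkpos : (0 : ℝ) < k := by
      have : 0 < k := by omega
      exact_mod_cast this
    have hid := choose_id k t ht (by omega)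
    have hlog := log_bound t (k - t) ht (by omega)
    have hRk : ((k - t : ℕ) : ℝ) ≤ k := by
      have : k - t ≤ k := Nat.sub_le _ _
      exact_mod_cast this
    have h1 : (F.card : ℝ) * (k - 1).choose (t - 1) * k ≤
        (600 * t * Real.log (t + 1) * V.card.choose t) * k := by
      calc (F.card : ℝ) * (k - 1).choose (t - 1) * k
          = ((F.card : ℝ) * k.choose t) * t := by rw [mul_assoc (F.card : ℝ) _ (t : ℝ), hid]; ring
        _ ≤ (muR (k - t) * V.card.choose t) * t := mul_le_mul_of_nonneg_right hc (by positivity)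
        _ ≤ ((100 * k * (4 * Real.log (t + 1))) * V.card.choose t) * t := by
            refine mul_le_mul_of_nonneg_right (mul_le_mul_of_nonneg_right ?_ hV0) (by positivity)
            unfold muR
            have h0 : 0 ≤ Real.log (((k - t : ℕ) : ℝ) + 1) := by
              have := Real.log_natCast_nonneg (k - t + 1)
              simpa using this
            exact mul_le_mul (by linarith) hlog h0 (by positivity)
        _ ≤ (600 * t * Real.log (t + 1) * V.card.choose t) * k := by
            have h2 : 0 ≤ (t : ℝ) * Real.log (t + 1) * V.card.choose t * k := by positivity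
            nlinarith
    exact le_of_mul_le_mul_right h1 hkpos
  · -- large `k`
    have ht2 : 0 < 4 * t ^ 2 := by positivity
    set l := (k - 1) / (4 * t ^ 2) with hl
    have hl1 : 1 ≤ l := by
      rw [hl, Nat.le_div_iff_mul_le ht2]; omega
    have hlk : l * (4 * t ^ 2) ≤ k - 1 := Nat.div_mul_le_self _ _
    have hlk2 : k - 1 < (l + 1) * (4 * t ^ 2) := by
      have := Nat.lt_div_mul_add (a := k - 1) (b := 4 * t ^ 2) ht2
      rw [← hl] at this
      rw [add_mul, one_mul]; exact this
    set α := (k - 1) / l with hα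
    have hα1 : 4 * t ^ 2 ≤ α := by
      rw [hα, Nat.le_div_iff_mul_le (by omega), mul_comm]; exact hlk
    have hα2 : α < 8 * t ^ 2 := by
      rw [hα, Nat.div_lt_iff_lt_mul (by omega)]
      calc k - 1 < (l + 1) * (4 * t ^ 2) := hlk2
        _ ≤ (l + l) * (4 * t ^ 2) := Nat.mul_le_mul_right _ (by omega)
        _ = 8 * t ^ 2 * l := by ring
    have hlα : l * α ≤ k - 1 := by rw [mul_comm]; exact Nat.div_mul_le_self _ _
    have hlα2 : k - 1 < l * (α + 1) := by
      have := Nat.lt_div_mul_add (a := k - 1) (b := l) (by omega)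
      rw [← hα] at this
      calc k - 1 < α * l + l := this
        _ = l * (α + 1) := by ring
    have htt : t ≤ t ^ 2 := Nat.le_self_pow (by norm_num) t
    set R' := α + 1 - t with hR'
    have hR'pos : 1 ≤ R' := by omega
    have hcpos : (0 : ℝ) < (α + 1).choose t := by exact_mod_cast Nat.choose_pos (by omega)
    have hα0 : (0 : ℝ) < α.choose (t - 1) := by exact_mod_cast Nat.choose_pos (by omega)
    set c : ℝ := muR R' / (α + 1).choose t with hc
    have hc0 : 0 ≤ c := div_nonneg (muR_nonneg _) hcpos.le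
    have hPc : ∀ V : Finset (Fin n), ∃ F, Cov V (α + 1) t F ∧
        (F.card : ℝ) ≤ c * V.card.choose t := by
      intro V
      obtain ⟨F, hF, h1⟩ := bound_one n (α + 1) t (by omega) V
      refine ⟨F, hF, ?_⟩
      rw [hc, div_mul_eq_mul_div, le_div_iff₀ hcpos]
      exact h1
    obtain ⟨F, hF, hFc⟩ := union_cov n k t l α hl1 ht (by omega) c hc0 hPc V
    refine ⟨F, hF, ?_⟩
    -- bound for `c`
    have hcb : c * α.choose (t - 1) ≤ 400 * t * Real.log (t + 1) := by
      have hid := choose_id (α + 1) t ht (by omega)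
      have h1 : α + 1 - 1 = α := by omega
      rw [h1] at hid
      have hlog := log_bound t R' ht (by omega)
      have hR'k : (R' : ℝ) ≤ (α : ℝ) + 1 := by
        have : R' ≤ α + 1 := Nat.sub_le _ _
        exact_mod_cast this
      have hαp : (0 : ℝ) < (α : ℝ) + 1 := by positivity
      have h2 : c * (α + 1).choose t = muR R' := by rw [hc]; field_simp
      have h3 : c * α.choose (t - 1) * (α + 1) = muR R' * t := by
        rw [← h2]
        push_cast at hid
        calc c * α.choose (t - 1) * (α + 1) = c * (((α : ℝ) + 1) * α.choose (t - 1)) := by ring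
          _ = c * (((α + 1).choose t : ℝ) * t) := by rw [hid]
          _ = _ := by ring
      have h4 : muR R' ≤ 100 * (α + 1) * (4 * Real.log (t + 1)) := by
        unfold muR
        have h0 : 0 ≤ Real.log ((R' : ℝ) + 1) := by
          have := Real.log_natCast_nonneg (R' + 1)
          simpa using this
        exact mul_le_mul (by linarith) hlog h0 (by positivity)
      have h5 : c * α.choose (t - 1) * (α + 1) ≤ (400 * t * Real.log (t + 1)) * (α + 1) := by
        rw [h3]
        have h6 := mul_le_mul_of_nonneg_right h4 (by linarith : (0 : ℝ) ≤ t)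
        linarith
      exact le_of_mul_le_mul_right h5 hαp
    -- comparison of the binomial coefficients
    have hbin : ((k - 1).choose (t - 1) : ℝ) * (3 / 4) ≤ (l : ℝ) ^ (t - 1) * α.choose (t - 1) := by
      set s := t - 1 with hs
      have hfac : (0 : ℝ) < s.factorial := by exact_mod_cast Nat.factorial_pos s
      have hαr : (0 : ℝ) < (α : ℝ) + 1 := by positivity
      have h1 : ((k - 1).choose s : ℝ) * s.factorial ≤ ((l : ℝ) * (α + 1)) ^ s := by
        have h2 : (k - 1).choose s * s.factorial ≤ (l * (α + 1)) ^ s := by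
          rw [mul_comm, ← Nat.descFactorial_eq_factorial_mul_choose]
          exact (Nat.descFactorial_le_pow _ _).trans (Nat.pow_le_pow_left hlα2.le _)
        exact_mod_cast h2
      have h3 : ((α + 1 - s : ℕ) : ℝ) ^ s ≤ (α.choose s : ℝ) * s.factorial := by
        have h4 := Nat.pow_sub_le_descFactorial α s
        rw [Nat.descFactorial_eq_factorial_mul_choose, mul_comm] at h4
        exact_mod_cast h4
      have h5 : ((α + 1 - s : ℕ) : ℝ) = ((α : ℝ) + 1) * (1 - s / (α + 1)) := by
        rw [Nat.cast_sub (by omega)]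
        push_cast
        field_simp
      have hsα : (s : ℝ) * s ≤ ((α : ℝ) + 1) / 4 := by
        have h6 : 4 * (s * s) ≤ α + 1 := by
          have h7 : s * s ≤ t * t := Nat.mul_le_mul (by omega) (by omega)
          have h8 : t * t = t ^ 2 := by ring
          omega
        have h9 : 4 * ((s : ℝ) * s) ≤ (α : ℝ) + 1 := by exact_mod_cast h6
        linarith
      have hs1 : (s : ℝ) / (α + 1) ≤ 1 := by
        rw [div_le_one hαr]
        have : s ≤ α + 1 := by omega
        exact_mod_cast this
      have hbern : (3 / 4 : ℝ) ≤ (1 - s / (α + 1)) ^ s := by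
        have h10 := one_add_mul_le_pow (a := -((s : ℝ) / (α + 1))) (by linarith) s
        have h11 : (1 + -((s : ℝ) / (α + 1))) ^ s = (1 - s / (α + 1)) ^ s := by ring
        rw [h11] at h10
        have h12 : (s : ℝ) * (s / (α + 1)) ≤ 1 / 4 := by
          rw [← mul_div_assoc, div_le_iff₀ hαr]; linarith
        linarith
      have h13 : ((α : ℝ) + 1) ^ s * (3 / 4) ≤ (α.choose s : ℝ) * s.factorial := by
        calc ((α : ℝ) + 1) ^ s * (3 / 4) ≤ ((α : ℝ) + 1) ^ s * (1 - s / (α + 1)) ^ s :=
              mul_le_mul_of_nonneg_left hbern (by positivity)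
          _ = ((α + 1 - s : ℕ) : ℝ) ^ s := by rw [h5, mul_pow]
          _ ≤ _ := h3
      have h14 : ((k - 1).choose s : ℝ) * (3 / 4) * s.factorial ≤
          ((l : ℝ) ^ s * α.choose s) * s.factorial := by
        calc ((k - 1).choose s : ℝ) * (3 / 4) * s.factorial
            = (((k - 1).choose s : ℝ) * s.factorial) * (3 / 4) := by ring
          _ ≤ (((l : ℝ) * (α + 1)) ^ s) * (3 / 4) :=
              mul_le_mul_of_nonneg_right h1 (by norm_num)
          _ = (l : ℝ) ^ s * (((α : ℝ) + 1) ^ s * (3 / 4)) := by rw [mul_pow]; ring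
          _ ≤ (l : ℝ) ^ s * ((α.choose s : ℝ) * s.factorial) :=
              mul_le_mul_of_nonneg_left h13 (by positivity)
          _ = _ := by ring
      exact le_of_mul_le_mul_right h14 hfac
    have hFpos : (0 : ℝ) ≤ F.card := by positivity
    calc (F.card : ℝ) * (k - 1).choose (t - 1)
        = 4 / 3 * ((F.card : ℝ) * (((k - 1).choose (t - 1) : ℝ) * (3 / 4))) := by ring
      _ ≤ 4 / 3 * ((F.card : ℝ) * ((l : ℝ) ^ (t - 1) * α.choose (t - 1))) := by
          refine mul_le_mul_of_nonneg_left ?_ (by norm_num)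
          exact mul_le_mul_of_nonneg_left hbin hFpos
      _ = 4 / 3 * (((F.card : ℝ) * (l : ℝ) ^ (t - 1)) * α.choose (t - 1)) := by ring
      _ ≤ 4 / 3 * ((c * V.card.choose t) * α.choose (t - 1)) := by
          refine mul_le_mul_of_nonneg_left ?_ (by norm_num)
          exact mul_le_mul_of_nonneg_right hFc hα0.le
      _ = 4 / 3 * ((c * α.choose (t - 1)) * V.card.choose t) := by ring
      _ ≤ 4 / 3 * ((400 * t * Real.log (t + 1)) * V.card.choose t) := by
          refine mul_le_mul_of_nonneg_left ?_ (by norm_num)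
          exact mul_le_mul_of_nonneg_right hcb hV0
      _ ≤ 600 * t * Real.log (t + 1) * V.card.choose t := by
          have : 0 ≤ (t : ℝ) * Real.log (t + 1) * V.card.choose t := by positivity
          nlinarith

end Pool.Agent.H279R2.Tur
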