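import Mathlib

/-!
# Greedy covering systems

For a finite set `V` and `t ≤ k` there is a family `F` of `t`-subsets of `V` such that every
`k`-subset of `V` contains a member of `F` and `|F| C(k,t) ≤ C(|V|,t) (2 + log C(|V|-t,k-t))`.
-/

namespace Pool.Agent.H279R2.Tur

open Finset

variable {α : Type*} [DecidableEq α]

/-- `F` is a family of `t`-subsets of `V` such that every `k`-subset of `V` contains a member
of `F`. -/
def Cov (V : Finset α) (k t : ℕ) (F : Finset (Finset α)) : Prop :=
  (∀ A ∈ F, A ⊆ V ∧ A.card = t) ∧ ∀ K ⊆ V, K.card = k → ∃ A ∈ F, A ⊆ K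

/-- the `k`-subsets of `V` not yet covered by `F` -/
def unc (V : Finset α) (k : ℕ) (F : Finset (Finset α)) : Finset (Finset α) :=
  (V.powersetCard k).filter (fun K => ∀ A ∈ F, ¬ A ⊆ K)

lemma unc_insert (V : Finset α) (k : ℕ) (F : Finset (Finset α)) (A : Finset α) :
    unc V k (insert A F) = (unc V k F).filter (fun K => ¬ A ⊆ K) := by
  ext K
  simp only [unc, mem_filter, mem_insert, forall_eq_or_imp]
  tauto

lemma step (V : Finset α) (k t : ℕ) (htk : t ≤ k) (hk : k ≤ V.card) (F : Finset (Finset α)) :
    ∃ A ∈ V.powersetCard t, ((unc V k (insert A F)).card : ℝ) ≤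
      (unc V k F).card * (1 - (k.choose t : ℝ) / (V.card.choose t)) := by
  classical
  have hN : 0 < V.card.choose t := Nat.choose_pos (le_trans htk hk)
  have hdc : ∑ A ∈ V.powersetCard t, ((unc V k F).filter (fun K => A ⊆ K)).card
      = ∑ K ∈ unc V k F, ((V.powersetCard t).filter (fun A => A ⊆ K)).card := by
    have := Finset.sum_card_bipartiteAbove_eq_sum_card_bipartiteBelow
      (s := V.powersetCard t) (t := unc V k F) (fun A K => A ⊆ K)
    simpa [Finset.bipartiteAbove, Finset.bipartiteBelow] using this
  have h2 : ∀ K ∈ unc V k F, ((V.powersetCard t).filter (fun A => A ⊆ K)).card = k.choose t := by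
    intro K hK
    have hK' : K ⊆ V ∧ K.card = k := by
      have := (mem_filter.1 hK).1
      simpa [mem_powersetCard] using this
    have : (V.powersetCard t).filter (fun A => A ⊆ K) = K.powersetCard t := by
      ext A
      simp only [mem_filter, mem_powersetCard]
      constructor
      · rintro ⟨⟨_, h⟩, h'⟩; exact ⟨h', h⟩
      · rintro ⟨h, h'⟩; exact ⟨⟨h.trans hK'.1, h'⟩, h⟩
    rw [this, card_powersetCard, hK'.2]
  rw [Finset.sum_congr rfl h2, Finset.sum_const, smul_eq_mul] at hdc
  -- some `A` covers at least the average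
  have hex : ∃ A ∈ V.powersetCard t,
      (unc V k F).card * k.choose t ≤ ((unc V k F).filter (fun K => A ⊆ K)).card
        * V.card.choose t := by
    by_contra hcon
    push Not at hcon
    have hne : (V.powersetCard t).Nonempty := by
      rw [← card_pos, card_powersetCard]; exact hN
    have h3 : ∑ A ∈ V.powersetCard t, ((unc V k F).filter (fun K => A ⊆ K)).card
        * V.card.choose t < ∑ A ∈ V.powersetCard t, (unc V k F).card * k.choose t :=
      Finset.sum_lt_sum_of_nonempty hne hcon
    rw [← Finset.sum_mul, hdc, Finset.sum_const, card_powersetCard, smul_eq_mul] at h3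
    exact absurd h3 (by rw [mul_comm]; exact lt_irrefl _)
  obtain ⟨A, hA, hA2⟩ := hex
  refine ⟨A, hA, ?_⟩
  have h4 : ((unc V k (insert A F)).card : ℝ) =
      (unc V k F).card - ((unc V k F).filter (fun K => A ⊆ K)).card := by
    rw [unc_insert]
    have := Finset.card_filter_add_card_filter_not (s := unc V k F) (fun K => A ⊆ K)
    rw [← this]; push_cast; ring
  rw [h4]
  have hNr : (0 : ℝ) < V.card.choose t := by exact_mod_cast hN
  have h5 : ((unc V k F).card : ℝ) * k.choose t / V.card.choose t ≤
      ((unc V k F).filter (fun K => A ⊆ K)).card := by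
    rw [div_le_iff₀ hNr]; exact_mod_cast hA2
  have h6 : ((unc V k F).card : ℝ) * (1 - (k.choose t : ℝ) / (V.card.choose t))
      = (unc V k F).card - ((unc V k F).card : ℝ) * k.choose t / V.card.choose t := by ring
  rw [h6]; linarith

lemma greedy_aux (V : Finset α) (k t : ℕ) (htk : t ≤ k) (hk : k ≤ V.card) (s : ℕ) :
    ∃ F ⊆ V.powersetCard t, F.card ≤ s ∧ ((unc V k F).card : ℝ) ≤
      (V.card.choose k) * (1 - (k.choose t : ℝ) / (V.card.choose t)) ^ s := by
  induction s with
  | zero =>
    refine ⟨∅, by simp, by simp, ?_⟩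
    have : (unc V k ∅).card = V.card.choose k := by simp [unc]
    rw [this]; simp
  | succ s ih =>
    obtain ⟨F, hF, hFs, hFu⟩ := ih
    obtain ⟨A, hA, hA2⟩ := step V k t htk hk F
    refine ⟨insert A F, ?_, ?_, ?_⟩
    · exact Finset.insert_subset hA hF
    · exact (card_insert_le _ _).trans (by omega)
    · refine hA2.trans ?_
      rw [pow_succ, ← mul_assoc]
      refine mul_le_mul_of_nonneg_right hFu ?_
      have hN : (0 : ℝ) < V.card.choose t := by
        exact_mod_cast Nat.choose_pos (le_trans htk hk)
      rw [sub_nonneg, div_le_one hN]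
      exact_mod_cast Nat.choose_le_choose t hk

theorem greedy (V : Finset α) (k t : ℕ) (htk : t ≤ k) :
    ∃ F, Cov V k t F ∧ (F.card : ℝ) * (k.choose t) ≤
      (V.card.choose t) * (2 + Real.log ((V.card - t).choose (k - t))) := by
  classical
  by_cases hk : k ≤ V.card
  swap
  · refine ⟨∅, ⟨by simp, ?_⟩, ?_⟩
    · intro K hK hKc
      exact absurd (card_le_card hK) (by omega)
    · have := Real.log_natCast_nonneg ((V.card - t).choose (k - t))
      simp only [card_empty, Nat.cast_zero, zero_mul]
      positivity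
  have hN : 0 < V.card.choose t := Nat.choose_pos (le_trans htk hk)
  have hd : 0 < k.choose t := Nat.choose_pos htk
  have hΔ : 0 < (V.card - t).choose (k - t) := Nat.choose_pos (by omega)
  set N : ℝ := (V.card.choose t : ℝ) with hNdef
  set d : ℝ := (k.choose t : ℝ) with hddef
  set Δ : ℝ := ((V.card - t).choose (k - t) : ℝ) with hΔdef
  have hNr : 0 < N := by rw [hNdef]; exact_mod_cast hN
  have hdr : 0 < d := by rw [hddef]; exact_mod_cast hd
  have hΔr : 1 ≤ Δ := by rw [hΔdef]; exact_mod_cast hΔ
  have hdN : d ≤ N := by rw [hddef, hNdef]; exact_mod_cast Nat.choose_le_choose t hk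
  have hlog : 0 ≤ Real.log Δ := Real.log_nonneg hΔr
  set s : ℕ := ⌈N / d * Real.log Δ⌉₊ with hs
  obtain ⟨F, hF, hFs, hFu⟩ := greedy_aux V k t htk hk s
  have hpow : (1 - d / N) ^ s ≤ 1 / Δ := by
    have h1 : 1 - d / N ≤ Real.exp (-(d / N)) := Real.one_sub_le_exp_neg _
    have h0 : 0 ≤ 1 - d / N := by
      rw [sub_nonneg, div_le_one hNr]; exact hdN
    calc (1 - d / N) ^ s ≤ (Real.exp (-(d / N))) ^ s := pow_le_pow_left₀ h0 h1 s
      _ = Real.exp (s * (-(d / N))) := by rw [← Real.exp_nat_mul]
      _ ≤ Real.exp (-Real.log Δ) := by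
          apply Real.exp_le_exp.2
          have h2 : N / d * Real.log Δ ≤ s := Nat.le_ceil _
          have h3 : d / N * (N / d * Real.log Δ) ≤ d / N * s :=
            mul_le_mul_of_nonneg_left h2 (by positivity)
          have h4 : d / N * (N / d * Real.log Δ) = Real.log Δ := by
            field_simp
          rw [h4] at h3
          linarith
      _ = 1 / Δ := by
          rw [Real.exp_neg, Real.exp_log (by linarith), one_div]
  have hmul : (V.card.choose k : ℝ) * d = N * Δ := by
    have := Nat.choose_mul (n := V.card) (k := k) (s := t) htk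
    rw [hddef, hNdef, hΔdef]
    exact_mod_cast this
  have hunc : ((unc V k F).card : ℝ) ≤ N / d := by
    refine hFu.trans ?_
    have h1 : (V.card.choose k : ℝ) * (1 - d / N) ^ s ≤ (V.card.choose k : ℝ) * (1 / Δ) :=
      mul_le_mul_of_nonneg_left hpow (by positivity)
    refine h1.trans (le_of_eq ?_)
    have hΔ0 : Δ ≠ 0 := by linarith
    field_simp
    linarith [hmul]
  -- complete by one block for each uncovered set
  have hch : ∀ K ∈ unc V k F, ∃ A, A ⊆ K ∧ A.card = t := by
    intro K hK
    have hK' : K ⊆ V ∧ K.card = k := by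
      have := (mem_filter.1 hK).1
      simpa [mem_powersetCard] using this
    exact exists_subset_card_eq (by omega)
  choose! g hg1 hg2 using hch
  refine ⟨F ∪ (unc V k F).image g, ⟨?_, ?_⟩, ?_⟩
  · intro A hA
    rcases mem_union.1 hA with hA | hA
    · have := hF hA
      simpa [mem_powersetCard] using this
    · obtain ⟨K, hK, rfl⟩ := mem_image.1 hA
      have hK' : K ⊆ V ∧ K.card = k := by
        have := (mem_filter.1 hK).1
        simpa [mem_powersetCard] using this
      exact ⟨(hg1 K hK).trans hK'.1, hg2 K hK⟩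
  · intro K hKV hKc
    by_cases h : K ∈ unc V k F
    · exact ⟨g K, mem_union_right _ (mem_image_of_mem _ h), hg1 K h⟩
    · simp only [unc, mem_filter, mem_powersetCard, not_and, not_forall, not_not] at h
      obtain ⟨A, hA, hAK⟩ := h ⟨hKV, hKc⟩
      exact ⟨A, mem_union_left _ hA, hAK⟩
  · have hcard : ((F ∪ (unc V k F).image g).card : ℝ) ≤ s + N / d := by
      have h1 : (F ∪ (unc V k F).image g).card ≤ F.card + (unc V k F).card :=
        (card_union_le _ _).trans (Nat.add_le_add_left card_image_le _)
      have h2 : ((F ∪ (unc V k F).image g).card : ℝ) ≤ F.card + (unc V k F).card := by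
        exact_mod_cast h1
      have h3 : (F.card : ℝ) ≤ s := by exact_mod_cast hFs
      linarith
    have hs2 : (s : ℝ) < N / d * Real.log Δ + 1 := Nat.ceil_lt_add_one (by positivity)
    have hNd : 1 ≤ N / d := by rw [one_le_div hdr]; exact hdN
    have h5 : ((F ∪ (unc V k F).image g).card : ℝ) ≤ N / d * (2 + Real.log Δ) := by
      nlinarith
    calc ((F ∪ (unc V k F).image g).card : ℝ) * d ≤ (N / d * (2 + Real.log Δ)) * d :=
          mul_le_mul_of_nonneg_right h5 hdr.le
      _ = N * (2 + Real.log Δ) := by field_simp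

end Pool.Agent.H279R2.Tur
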