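import Pool.Agent.H279R2.Tur.Count

/-!
# The uniform upper bound
-/

namespace Pool.Agent.H279R2.Tur

open Finset Nat

/-- weights -/
noncomputable def wt (h : ℕ) : ℝ := if h = 0 then 1 else if h = 1 then 0 else (1 / 2) ^ h

lemma wt_nonneg (h : ℕ) : 0 ≤ wt h := by
  unfold wt; split_ifs <;> positivity

lemma sum_wt (t : ℕ) (ht : 1 ≤ t) : ∑ h ∈ range (t + 1), wt h = 3 / 2 - (1 / 2) ^ t := by
  induction t, ht using Nat.le_induction with
  | base => simp [sum_range_succ, wt]; norm_num
  | succ t ht ih =>
    rw [sum_range_succ, ih]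
    have h1 : wt (t + 1) = (1 / 2) ^ (t + 1) := by
      unfold wt
      rw [if_neg (by omega), if_neg (by omega)]
    rw [h1, pow_succ]; ring

lemma log_choose_le (a R M : ℕ) (h : a ≤ M) :
    Real.log (a.choose R) ≤ R * Real.log M := by
  rcases Nat.eq_zero_or_pos (a.choose R) with h0 | h0
  · rw [h0]; simp only [Nat.cast_zero, Real.log_zero]
    have := Real.log_natCast_nonneg M
    positivity
  · rw [← Real.log_pow]
    apply Real.log_le_log (by exact_mod_cast h0)
    calc ((a.choose R : ℕ) : ℝ) ≤ ((a ^ R : ℕ) : ℝ) := by exact_mod_cast Nat.choose_le_pow _ _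
      _ ≤ (M : ℝ) ^ R := by
          push_cast
          exact pow_le_pow_left₀ (by positivity) (by exact_mod_cast h) _

theorem main_bound (n k t : ℕ) (ht : 2 ≤ t) (htk : t < k) (V : Finset (Fin n)) :
    ∃ F, Cov V k t F ∧ (F.card : ℝ) * k.choose t ≤
      V.card.choose t * (5 + 6 * ((k : ℝ) - t) * Real.log k) := by
  classical
  set m := k ^ 4 with hm
  have hk : 0 < k := by omega
  have hmpos : 0 < m := by positivity
  have hex : ∀ (E : Finset (Fin m)) (h : ℕ), ∃ F, Cov (univ \ E) (k - h) (t - h) F ∧
      (F.card : ℝ) * ((k - h).choose (t - h)) ≤ ((univ \ E).card.choose (t - h)) *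
        (2 + Real.log (((univ \ E).card - (t - h)).choose ((k - h) - (t - h)))) :=
    fun E h => greedy _ _ _ (by omega)
  choose B hB1 hB2 using hex
  set L : ℝ := 2 + ((k : ℝ) - t) * Real.log m with hL
  have hlogm : 0 ≤ Real.log m := Real.log_natCast_nonneg m
  have hkt : (0 : ℝ) < (k : ℝ) - t := by
    rw [sub_pos]; exact_mod_cast htk
  have hLpos : 0 ≤ L := by positivity
  have hcardB : ∀ (E : Finset (Fin m)) (h : ℕ), h ≤ t →
      ((B E h).card : ℝ) * (t - h).factorial * (k - h).choose (t - h) ≤ (m : ℝ) ^ (t - h) * L := by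
    intro E h hh
    have hEc : (univ \ E).card ≤ m := by
      calc (univ \ E).card ≤ (univ : Finset (Fin m)).card := card_le_card sdiff_subset
        _ = m := by simp
    have h1 := hB2 E h
    have h2 : Real.log (((univ \ E).card - (t - h)).choose ((k - h) - (t - h)))
        ≤ ((k : ℝ) - t) * Real.log m := by
      have h3 := log_choose_le ((univ \ E).card - (t - h)) ((k - h) - (t - h)) m
        ((Nat.sub_le _ _).trans hEc)
      have h4 : (((k - h) - (t - h) : ℕ) : ℝ) = (k : ℝ) - t := by
        have : (k - h) - (t - h) = k - t := by omega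
        rw [this, Nat.cast_sub htk.le]
      rwa [h4] at h3
    have h5 : (((univ \ E).card.choose (t - h) : ℕ) : ℝ) * (t - h).factorial
        ≤ (m : ℝ) ^ (t - h) := by
      have h6 : (univ \ E).card.choose (t - h) * (t - h).factorial ≤ m ^ (t - h) := by
        rw [mul_comm, ← Nat.descFactorial_eq_factorial_mul_choose]
        exact (Nat.descFactorial_le_pow _ _).trans (Nat.pow_le_pow_left hEc _)
      exact_mod_cast h6
    calc ((B E h).card : ℝ) * (t - h).factorial * (k - h).choose (t - h)
        = ((B E h).card : ℝ) * (k - h).choose (t - h) * (t - h).factorial := by ring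
      _ ≤ (((univ \ E).card.choose (t - h)) * (2 + Real.log (((univ \ E).card
            - (t - h)).choose ((k - h) - (t - h))))) * (t - h).factorial :=
          mul_le_mul_of_nonneg_right h1 (by positivity)
      _ ≤ (((univ \ E).card.choose (t - h)) * L) * (t - h).factorial := by
          refine mul_le_mul_of_nonneg_right ?_ (by positivity)
          refine mul_le_mul_of_nonneg_left ?_ (by positivity)
          rw [hL]; linarith
      _ = (((univ \ E).card.choose (t - h) : ℕ) : ℝ) * (t - h).factorial * L := by ring
      _ ≤ (m : ℝ) ^ (t - h) * L := mul_le_mul_of_nonneg_right h5 hLpos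
  -- the number of maps for which a given set is good
  have hcount : ∀ A : Finset (Fin n), A.card = t →
      (((univ : Finset (Fin n → Fin m)).filter (fun f => Good t B f A)).card : ℝ) * k.choose t
        ≤ (m : ℝ) ^ n * (2 + 3 / 2 * L) := by
    intro A hA
    have htn : t ≤ n := by
      rw [← hA]; calc A.card ≤ (univ : Finset (Fin n)).card := card_le_card (subset_univ _)
        _ = n := by simp
    set b := (t + 1) / 2 with hb
    have hbm : b ≤ m := by
      calc b ≤ k := by omega
        _ ≤ m := Nat.le_self_pow (by norm_num) k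
    have hsub : (univ : Finset (Fin n → Fin m)).filter (fun f => Good t B f A) ⊆
        (univ.filter (fun f => (A.image f).card ≤ b)) ∪
        (A.powerset.biUnion (fun H => univ.filter
          (fun f => core f A = H ∧ (A \ H).image f ∈ B (H.image f) H.card))) := by
      intro f hf
      have hg := (mem_filter.1 hf).2
      rcases hg with hg | hg
      · refine mem_union_left _ (mem_filter.2 ⟨mem_univ _, ?_⟩)
        have h1 := two_mul_card_image_core f A
        have h2 : (A.image f).card ≤ ((core f A).image f).card + (A \ core f A).card := by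
          have : A = core f A ∪ (A \ core f A) := by
            rw [union_sdiff_of_subset (core_subset f A)]
          calc (A.image f).card = ((core f A ∪ (A \ core f A)).image f).card := by rw [← this]
            _ ≤ ((core f A).image f).card + ((A \ core f A).image f).card := by
                rw [image_union]; exact card_union_le _ _
            _ ≤ _ := Nat.add_le_add_left card_image_le _
        rw [card_sdiff_of_subset (core_subset f A), hA] at h2
        have h3 : (core f A).card ≤ t := by
          rw [← hA]; exact card_le_card (core_subset f A)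
        omega
      · refine mem_union_right _ (mem_biUnion.2 ⟨core f A, mem_powerset.2 (core_subset f A), ?_⟩)
        exact mem_filter.2 ⟨mem_univ _, rfl, hg⟩
    set G : ℕ → ℕ := fun h => ∑ E ∈ (univ : Finset (Fin m)).powerset,
      (if 2 * E.card ≤ h then
        (B E h).card * ((t - h).factorial * (E.card ^ h * m ^ (n - t))) else 0) with hG
    have hnat : ((univ : Finset (Fin n → Fin m)).filter (fun f => Good t B f A)).card ≤
        m.choose b * (b ^ t * m ^ (n - t)) + ∑ h ∈ range (t + 1), t.choose h * G h := by
      refine (card_le_card hsub).trans ((card_union_le _ _).trans (Nat.add_le_add ?_ ?_))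
      · have := count1 n m b hbm A
        rwa [hA] at this
      · refine card_biUnion_le.trans ?_
        calc ∑ H ∈ A.powerset, (univ.filter
              (fun f : Fin n → Fin m => core f A = H ∧
                (A \ H).image f ∈ B (H.image f) H.card)).card
            ≤ ∑ H ∈ A.powerset, G H.card := by
              apply sum_le_sum
              intro H hH
              exact count2 n m t A hA H (mem_powerset.1 hH) B
                (fun E h B' hB' => ((hB1 E h).1 B' hB').2)
          _ = ∑ h ∈ range (t + 1), t.choose h * G h := by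
              rw [Finset.sum_powerset_apply_card G, hA]
              simp
    have h1 : ((m.choose b * (b ^ t * m ^ (n - t)) : ℕ) : ℝ) * k.choose t ≤ 2 * (m : ℝ) ^ n := by
      have h2 : m.choose b * (b ^ t * m ^ (n - t)) * k.choose t ≤ 2 * m ^ n := by
        calc m.choose b * (b ^ t * m ^ (n - t)) * k.choose t
            = (m.choose b * b ^ t * k.choose t) * m ^ (n - t) := by ring
          _ ≤ (2 * m ^ t) * m ^ (n - t) := Nat.mul_le_mul_right _ (key_rich k t ht htk)
          _ = 2 * m ^ n := by
              rw [mul_assoc, ← pow_add]; congr 2; omega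
      exact_mod_cast h2
    have h3 : ∀ h ∈ range (t + 1), ((t.choose h * G h : ℕ) : ℝ) * k.choose t
        ≤ wt h * (L * (m : ℝ) ^ n) := by
      intro h hh
      have hht : h ≤ t := by rw [mem_range] at hh; omega
      have hcc : (t.choose h : ℝ) * k.choose t = k.choose h * (k - h).choose (t - h) := by
        have := Nat.choose_mul (n := k) (k := t) (s := h) hht
        rw [mul_comm]; exact_mod_cast this
      have hGr : ((G h : ℕ) : ℝ) * (k - h).choose (t - h) ≤
          (Sh m h : ℝ) * ((m : ℝ) ^ (n - h) * L) := by
        rw [hG]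
        simp only [Sh]
        push_cast
        rw [sum_mul, sum_mul]
        apply sum_le_sum
        intro E _
        by_cases hE : 2 * E.card ≤ h
        · simp only [hE, if_true]
          have h4 := hcardB E h hht
          have h5 : (m : ℝ) ^ (n - h) = (m : ℝ) ^ (t - h) * (m : ℝ) ^ (n - t) := by
            rw [← pow_add]; congr 1; omega
          rw [h5]
          calc ((B E h).card : ℝ) * ((t - h).factorial * ((E.card : ℝ) ^ h * (m : ℝ) ^ (n - t)))
                * (k - h).choose (t - h)
              = (((B E h).card : ℝ) * (t - h).factorial * (k - h).choose (t - h)) *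
                  ((E.card : ℝ) ^ h * (m : ℝ) ^ (n - t)) := by ring
            _ ≤ ((m : ℝ) ^ (t - h) * L) * ((E.card : ℝ) ^ h * (m : ℝ) ^ (n - t)) :=
                mul_le_mul_of_nonneg_right h4 (by positivity)
            _ = (E.card : ℝ) ^ h * ((m : ℝ) ^ (t - h) * (m : ℝ) ^ (n - t) * L) := by ring
        · simp [hE]
      have hSw : (k.choose h : ℝ) * Sh m h ≤ wt h * (m : ℝ) ^ h := by
        rcases Nat.lt_or_ge h 2 with h2 | h2
        · interval_cases h
          · rw [Sh_zero]; simp [wt]
          · rw [Sh_one]; simp [wt]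
        · have h6 := key_h k h h2 (by omega)
          have h7 : (k.choose h : ℝ) * Sh m h * 2 ^ h ≤ (m : ℝ) ^ h := by
            rw [hm]; exact_mod_cast h6
          have h8 : wt h = (1 / 2) ^ h := by
            unfold wt; rw [if_neg (by omega), if_neg (by omega)]
          rw [h8]
          have h9 : (0 : ℝ) < 2 ^ h := by positivity
          rw [one_div, inv_pow, inv_mul_eq_div, le_div_iff₀ h9]
          exact h7
      calc ((t.choose h * G h : ℕ) : ℝ) * k.choose t
          = ((t.choose h : ℝ) * k.choose t) * G h := by push_cast; ring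
        _ = k.choose h * ((G h : ℝ) * (k - h).choose (t - h)) := by rw [hcc]; ring
        _ ≤ k.choose h * ((Sh m h : ℝ) * ((m : ℝ) ^ (n - h) * L)) :=
            mul_le_mul_of_nonneg_left hGr (by positivity)
        _ = ((k.choose h : ℝ) * Sh m h) * ((m : ℝ) ^ (n - h) * L) := by ring
        _ ≤ (wt h * (m : ℝ) ^ h) * ((m : ℝ) ^ (n - h) * L) :=
            mul_le_mul_of_nonneg_right hSw (by positivity)
        _ = wt h * (L * ((m : ℝ) ^ h * (m : ℝ) ^ (n - h))) := by ring
        _ = wt h * (L * (m : ℝ) ^ n) := by
            rw [← pow_add]; congr 3; omega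
    have hnatr : (((univ : Finset (Fin n → Fin m)).filter (fun f => Good t B f A)).card : ℝ) ≤
        ((m.choose b * (b ^ t * m ^ (n - t)) : ℕ) : ℝ) +
          ∑ h ∈ range (t + 1), ((t.choose h * G h : ℕ) : ℝ) := by
      exact_mod_cast hnat
    calc (((univ : Finset (Fin n → Fin m)).filter (fun f => Good t B f A)).card : ℝ) * k.choose t
        ≤ (((m.choose b * (b ^ t * m ^ (n - t)) : ℕ) : ℝ) +
          ∑ h ∈ range (t + 1), ((t.choose h * G h : ℕ) : ℝ)) * k.choose t :=
          mul_le_mul_of_nonneg_right hnatr (by positivity)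
      _ = ((m.choose b * (b ^ t * m ^ (n - t)) : ℕ) : ℝ) * k.choose t +
          ∑ h ∈ range (t + 1), ((t.choose h * G h : ℕ) : ℝ) * k.choose t := by
          rw [add_mul, sum_mul]
      _ ≤ 2 * (m : ℝ) ^ n + ∑ h ∈ range (t + 1), wt h * (L * (m : ℝ) ^ n) :=
          add_le_add h1 (sum_le_sum h3)
      _ = 2 * (m : ℝ) ^ n + (3 / 2 - (1 / 2) ^ t) * (L * (m : ℝ) ^ n) := by
          rw [← sum_mul, sum_wt t (by omega)]
      _ ≤ (m : ℝ) ^ n * (2 + 3 / 2 * L) := by
          have h10 : (0 : ℝ) ≤ (1 / 2) ^ t * (L * (m : ℝ) ^ n) := by positivity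
          nlinarith
  -- averaging over all maps
  set FF : (Fin n → Fin m) → Finset (Finset (Fin n)) :=
    fun f => (V.powersetCard t).filter (fun A => Good t B f A) with hFF
  have hsum : ∑ f : Fin n → Fin m, ((FF f).card : ℝ) * k.choose t ≤
      ∑ f : Fin n → Fin m, (V.card.choose t : ℝ) * (2 + 3 / 2 * L) := by
    have h1 : ∑ f : Fin n → Fin m, (FF f).card =
        ∑ A ∈ V.powersetCard t, ((univ : Finset (Fin n → Fin m)).filter
          (fun f => Good t B f A)).card := by
      have := Finset.sum_card_bipartiteAbove_eq_sum_card_bipartiteBelow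
        (s := (univ : Finset (Fin n → Fin m))) (t := V.powersetCard t)
        (fun f A => Good t B f A)
      simpa [Finset.bipartiteAbove, Finset.bipartiteBelow] using this
    rw [← sum_mul]
    have h2 : ((∑ f : Fin n → Fin m, ((FF f).card : ℝ))) =
        ∑ A ∈ V.powersetCard t, (((univ : Finset (Fin n → Fin m)).filter
          (fun f => Good t B f A)).card : ℝ) := by
      exact_mod_cast h1
    rw [h2, sum_mul]
    calc ∑ A ∈ V.powersetCard t, (((univ : Finset (Fin n → Fin m)).filter
          (fun f => Good t B f A)).card : ℝ) * k.choose t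
        ≤ ∑ A ∈ V.powersetCard t, (m : ℝ) ^ n * (2 + 3 / 2 * L) := by
          apply sum_le_sum
          intro A hA
          exact hcount A (mem_powersetCard.1 hA).2
      _ = ∑ f : Fin n → Fin m, (V.card.choose t : ℝ) * (2 + 3 / 2 * L) := by
          rw [sum_const, sum_const, card_powersetCard, Finset.card_univ]
          simp only [nsmul_eq_mul, Fintype.card_fun, Fintype.card_fin]
          push_cast
          ring
  have : Nonempty (Fin m) := ⟨⟨0, hmpos⟩⟩
  obtain ⟨f, -, hf⟩ := Finset.exists_le_of_sum_le (s := (univ : Finset (Fin n → Fin m)))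
    univ_nonempty hsum
  refine ⟨FF f, ⟨?_, ?_⟩, ?_⟩
  · intro A hA
    exact mem_powersetCard.1 (mem_filter.1 hA).1
  · intro K hKV hKc
    obtain ⟨A, hAK, hAc, hAg⟩ := exists_good (k := k) (t := t) B hB1 f K hKc
    exact ⟨A, mem_filter.2 ⟨mem_powersetCard.2 ⟨hAK.trans hKV, hAc⟩, hAg⟩, hAK⟩
  · refine hf.trans (le_of_eq ?_)
    have : Real.log m = 4 * Real.log k := by
      rw [hm]; push_cast; rw [Real.log_pow]; norm_num
    rw [hL, this]; ring

end Pool.Agent.H279R2.Tur
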