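import Pool.Agent.H279R2.Tur.Greedy

/-!
# The random recursion (combinatorial part)
-/

namespace Pool.Agent.H279R2.Tur

open Finset

/-- every subset of `Y` with `R` fewer elements has a nonzero colour -/
def Bad {n Q : ℕ} (R : ℕ) (c : Finset (Fin n) → Fin Q) (Y : Finset (Fin n)) : Prop :=
  ∀ Y' ⊆ Y, Y'.card + R = Y.card → (c Y').val ≠ 0

/-- the part of `A` of colour `0` -/
def p0 {n D : ℕ} (g : Fin n → Fin D) (A : Finset (Fin n)) : Finset (Fin n) :=
  A.filter (fun x => (g x).val = 0)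

/-- the part of `A` of nonzero colour -/
def p1 {n D : ℕ} (g : Fin n → Fin D) (A : Finset (Fin n)) : Finset (Fin n) :=
  A.filter (fun x => (g x).val ≠ 0)

lemma p0_sub {n D : ℕ} (g : Fin n → Fin D) (A : Finset (Fin n)) : p0 g A ⊆ A := filter_subset _ _
lemma p1_sub {n D : ℕ} (g : Fin n → Fin D) (A : Finset (Fin n)) : p1 g A ⊆ A := filter_subset _ _

lemma card_p0_add_p1 {n D : ℕ} (g : Fin n → Fin D) (A : Finset (Fin n)) :
    (p0 g A).card + (p1 g A).card = A.card := by
  unfold p0 p1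
  exact Finset.card_filter_add_card_filter_not _

lemma p0_mono {n D : ℕ} (g : Fin n → Fin D) {A B : Finset (Fin n)} (h : A ⊆ B) :
    p0 g A ⊆ p0 g B := filter_subset_filter _ h

lemma p0_union {n D : ℕ} (g : Fin n → Fin D) {X Y K : Finset (Fin n)} (hX : X ⊆ p0 g K)
    (hY : Y ⊆ p1 g K) : p0 g (X ∪ Y) = X ∧ p1 g (X ∪ Y) = Y ∧ Disjoint X Y := by
  have h0 : ∀ x ∈ X, (g x).val = 0 := fun x hx => (mem_filter.1 (hX hx)).2
  have h1 : ∀ x ∈ Y, (g x).val ≠ 0 := fun x hx => (mem_filter.1 (hY hx)).2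
  refine ⟨?_, ?_, ?_⟩
  · ext x
    simp only [p0, mem_filter, mem_union]
    constructor
    · rintro ⟨h | h, h'⟩
      · exact h
      · exact absurd h' (h1 x h)
    · intro h; exact ⟨Or.inl h, h0 x h⟩
  · ext x
    simp only [p1, mem_filter, mem_union]
    constructor
    · rintro ⟨h | h, h'⟩
      · exact absurd (h0 x h) h'
      · exact h
    · intro h; exact ⟨Or.inr h, h1 x h⟩
  · rw [disjoint_left]
    intro x hx hy
    exact h1 x hy (h0 x hx)

/-- The random recursive system. -/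
def RG {n D Q : ℕ} (R a : ℕ) (F2 : ℕ → Finset (Finset (Fin n))) (g : Fin n → Fin D)
    (c : Finset (Fin n) → Fin Q) (A : Finset (Fin n)) : Prop :=
  (c (p1 g A)).val = 0 ∨ (p0 g A).card < R ∨ a ≤ (p0 g A).card ∨
    ((p0 g A).card < a ∧ Bad R c (p1 g A) ∧ p0 g A ∈ F2 (p0 g A).card)

lemma exists_RG {n D Q : ℕ} (R a t : ℕ) (V : Finset (Fin n))
    (g : Fin n → Fin D) (F2 : ℕ → Finset (Finset (Fin n)))
    (hF2 : ∀ x < a, Cov (p0 g V) (x + R) x (F2 x))
    (c : Finset (Fin n) → Fin Q) (K : Finset (Fin n)) (hKV : K ⊆ V) (hK : K.card = t + R) :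
    ∃ A ⊆ K, A.card = t ∧ RG R a F2 g c A := by
  have hsum := card_p0_add_p1 g K
  by_cases h0 : (p0 g K).card < R
  · obtain ⟨A, hA, hAc⟩ := exists_subset_card_eq (s := K) (n := t) (by omega)
    exact ⟨A, hA, hAc, Or.inr (Or.inl (lt_of_le_of_lt (card_le_card (p0_mono g hA)) h0))⟩
  push Not at h0
  by_cases hb : Bad R c (p1 g K)
  · set x := (p0 g K).card - R with hx
    by_cases hxa : x < a
    · obtain ⟨A0, hA0, hA0K⟩ := (hF2 x hxa).2 (p0 g K) (p0_mono g hKV) (by omega)
      have hA0c := ((hF2 x hxa).1 A0 hA0).2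
      obtain ⟨h1, h2, h3⟩ := p0_union g hA0K (Finset.Subset.refl (p1 g K))
      refine ⟨A0 ∪ p1 g K, union_subset (hA0K.trans (p0_sub g K)) (p1_sub g K), ?_, ?_⟩
      · rw [card_union_of_disjoint h3, hA0c]; omega
      · refine Or.inr (Or.inr (Or.inr ⟨?_, ?_, ?_⟩))
        · rw [h1, hA0c]; exact hxa
        · rw [h2]; exact hb
        · rw [h1, hA0c]; exact hA0
    · push Not at hxa
      obtain ⟨A0, hA0K, hA0c⟩ := exists_subset_card_eq (s := p0 g K) (n := x) (by omega)
      obtain ⟨h1, h2, h3⟩ := p0_union g hA0K (Finset.Subset.refl (p1 g K))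
      refine ⟨A0 ∪ p1 g K, union_subset (hA0K.trans (p0_sub g K)) (p1_sub g K), ?_, ?_⟩
      · rw [card_union_of_disjoint h3, hA0c]; omega
      · refine Or.inr (Or.inr (Or.inl ?_))
        rw [h1, hA0c]; exact hxa
  · unfold Bad at hb
    push Not at hb
    obtain ⟨Y', hY', hYc, hc⟩ := hb
    obtain ⟨h1, h2, h3⟩ := p0_union g (Finset.Subset.refl (p0 g K)) hY'
    refine ⟨p0 g K ∪ Y', union_subset (p0_sub g K) (hY'.trans (p1_sub g K)), ?_, ?_⟩
    · rw [card_union_of_disjoint h3]; omega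
    · left; rw [h2]; exact hc

/-! ### Counting colourings -/

lemma count_colour {X : Type*} [Fintype X] [DecidableEq X] (Q : ℕ) (hQ : 0 < Q) (S : Finset X) :
    (((univ : Finset (X → Fin Q)).filter (fun c => ∀ y ∈ S, (c y).val ≠ 0)).card : ℝ)
      = (Q : ℝ) ^ (Fintype.card X) * (1 - 1 / (Q : ℝ)) ^ S.card := by
  classical
  have h1 : (univ : Finset (X → Fin Q)).filter (fun c => ∀ y ∈ S, (c y).val ≠ 0) =
      Fintype.piFinset (fun y => if y ∈ S then (univ : Finset (Fin Q)).filter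
        (fun i => i.val ≠ 0) else univ) := by
    ext c
    simp only [mem_filter, mem_univ, true_and, Fintype.mem_piFinset]
    constructor
    · intro h y
      by_cases hy : y ∈ S
      · simp [hy, h y hy]
      · simp [hy]
    · intro h y hy
      have := h y
      simp only [hy, if_true, mem_filter, mem_univ, true_and] at this
      exact this
  have h2 : ((univ : Finset (Fin Q)).filter (fun i => i.val ≠ 0)).card = Q - 1 := by
    have h3 : (univ : Finset (Fin Q)).filter (fun i => i.val ≠ 0) =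
        univ.erase (⟨0, hQ⟩ : Fin Q) := by
      ext i
      simp only [mem_filter, mem_univ, true_and, mem_erase, and_true]
      constructor
      · intro h h'; exact h (by rw [h'])
      · intro h h'; exact h (Fin.ext h')
    rw [h3, card_erase_of_mem (mem_univ _)]; simp
  rw [h1, Fintype.card_piFinset]
  have h4 : ∏ y : X, (if y ∈ S then (univ : Finset (Fin Q)).filter
        (fun i => i.val ≠ 0) else univ).card = ∏ y : X, (if y ∈ S then (Q - 1) else Q) := by
    apply prod_congr rfl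
    intro y _
    by_cases hy : y ∈ S
    · simp only [hy, if_true]; exact h2
    · simp [hy]
  rw [h4, prod_ite, prod_const, prod_const]
  have h5 : (univ : Finset X).filter (fun y => y ∈ S) = S := by ext; simp
  have h6 : (univ : Finset X).filter (fun y => y ∉ S) = Sᶜ := by ext; simp
  rw [h5, h6, card_compl]
  have hle : S.card ≤ Fintype.card X := card_le_univ S
  have hQr : (Q : ℝ) ≠ 0 := by exact_mod_cast hQ.ne'
  have h7 : (Q : ℝ) ^ (Fintype.card X) = (Q : ℝ) ^ S.card * (Q : ℝ) ^ (Fintype.card X - S.card) := by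
    rw [← pow_add]; congr 1; omega
  rw [h7]
  push_cast [Nat.cast_sub hQ]
  have h8 : (1 - 1 / (Q : ℝ)) = ((Q : ℝ) - 1) / Q := by field_simp
  rw [h8, div_pow]
  field_simp

end Pool.Agent.H279R2.Tur
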