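import Pool.Agent.H279R2.Tur.Rec

/-!
# The random recursion (averaging)
-/

namespace Pool.Agent.H279R2.Tur

open Finset

lemma count_two {n : ℕ} (D : ℕ) (hD : 0 < D) (Z0 Z1 : Finset (Fin n)) (hdisj : Disjoint Z0 Z1) :
    (((univ : Finset (Fin n → Fin D)).filter (fun g => (∀ y ∈ Z0, (g y).val = 0) ∧
      ∀ y ∈ Z1, (g y).val ≠ 0)).card : ℝ)
      = (D : ℝ) ^ n * ((1 / (D : ℝ)) ^ Z0.card * (1 - 1 / (D : ℝ)) ^ Z1.card) := by
  classical
  have h1 : (univ : Finset (Fin n → Fin D)).filter (fun g => (∀ y ∈ Z0, (g y).val = 0) ∧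
      ∀ y ∈ Z1, (g y).val ≠ 0) =
      Fintype.piFinset (fun y => if y ∈ Z0 then ({⟨0, hD⟩} : Finset (Fin D)) else
        if y ∈ Z1 then univ.erase ⟨0, hD⟩ else univ) := by
    ext c
    simp only [mem_filter, mem_univ, true_and, Fintype.mem_piFinset]
    constructor
    · rintro ⟨ha, hb⟩ y
      by_cases hy : y ∈ Z0
      · simp only [hy, if_true, mem_singleton]
        exact Fin.ext (ha y hy)
      · by_cases hy1 : y ∈ Z1
        · simp only [hy, hy1, if_true, if_false, mem_erase, mem_univ, and_true]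
          intro h
          exact hb y hy1 (by rw [h])
        · simp [hy, hy1]
    · intro h
      constructor
      · intro y hy
        have := h y
        simp only [hy, if_true, mem_singleton] at this
        rw [this]
      · intro y hy h0
        have hy0 : y ∉ Z0 := fun h' => (disjoint_left.1 hdisj h') hy
        have := h y
        simp only [hy0, hy, if_true, if_false, mem_erase, mem_univ, and_true] at this
        exact this (Fin.ext h0)
  rw [h1, Fintype.card_piFinset]
  have hDr : (D : ℝ) ≠ 0 := by exact_mod_cast hD.ne'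
  have h4 : ((∏ y : Fin n, (if y ∈ Z0 then ({⟨0, hD⟩} : Finset (Fin D)) else
        if y ∈ Z1 then univ.erase ⟨0, hD⟩ else univ).card : ℕ) : ℝ)
      = ∏ y : Fin n, ((D : ℝ) * ((if y ∈ Z0 then (1 / (D : ℝ)) else 1) *
        (if y ∈ Z1 then (1 - 1 / (D : ℝ)) else 1))) := by
    rw [Nat.cast_prod]
    apply prod_congr rfl
    intro y _
    by_cases hy : y ∈ Z0
    · have hy1 : y ∉ Z1 := fun h' => (disjoint_left.1 hdisj hy) h'
      simp only [hy, hy1, if_true, if_false, card_singleton]
      field_simp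
      norm_num
    · by_cases hy1 : y ∈ Z1
      · simp only [hy, hy1, if_true, if_false]
        rw [card_erase_of_mem (mem_univ _)]
        simp only [Finset.card_univ, Fintype.card_fin]
        rw [Nat.cast_sub hD]
        field_simp
        norm_num
      · simp [hy, hy1]
  rw [h4, prod_mul_distrib, prod_mul_distrib, prod_const, prod_ite, prod_ite]
  simp only [prod_const, one_pow, mul_one]
  simp

/-- the number of maps for which `A` has exactly `x` elements of colour `0` -/
lemma count_p0_eq {n : ℕ} (D : ℕ) (hD : 0 < D) (A : Finset (Fin n)) (t x : ℕ)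
    (hA : A.card = t) :
    (((univ : Finset (Fin n → Fin D)).filter (fun g => (p0 g A).card = x)).card : ℝ)
      ≤ (D : ℝ) ^ n * (t.choose x * ((1 / (D : ℝ)) ^ x * (1 - 1 / (D : ℝ)) ^ (t - x))) := by
  classical
  have hsub : (univ : Finset (Fin n → Fin D)).filter (fun g => (p0 g A).card = x) ⊆
      (A.powersetCard x).biUnion (fun Z => univ.filter (fun g => (∀ y ∈ Z, (g y).val = 0) ∧
        ∀ y ∈ A \ Z, (g y).val ≠ 0)) := by
    intro g hg
    have hg' := (mem_filter.1 hg).2
    refine mem_biUnion.2 ⟨p0 g A, mem_powersetCard.2 ⟨p0_sub g A, hg'⟩,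
      mem_filter.2 ⟨mem_univ _, ?_, ?_⟩⟩
    · intro y hy; exact (mem_filter.1 hy).2
    · intro y hy h0
      rw [mem_sdiff] at hy
      exact hy.2 (mem_filter.2 ⟨hy.1, h0⟩)
  have h1 := (card_le_card hsub).trans card_biUnion_le
  have h2 : (((univ : Finset (Fin n → Fin D)).filter (fun g => (p0 g A).card = x)).card : ℝ) ≤
      ∑ Z ∈ A.powersetCard x, (((univ : Finset (Fin n → Fin D)).filter
        (fun g => (∀ y ∈ Z, (g y).val = 0) ∧ ∀ y ∈ A \ Z, (g y).val ≠ 0)).card : ℝ) := by
    exact_mod_cast h1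
  refine h2.trans (le_of_eq ?_)
  have h3 : ∀ Z ∈ A.powersetCard x, (((univ : Finset (Fin n → Fin D)).filter
        (fun g => (∀ y ∈ Z, (g y).val = 0) ∧ ∀ y ∈ A \ Z, (g y).val ≠ 0)).card : ℝ)
      = (D : ℝ) ^ n * ((1 / (D : ℝ)) ^ x * (1 - 1 / (D : ℝ)) ^ (t - x)) := by
    intro Z hZ
    rw [mem_powersetCard] at hZ
    rw [count_two D hD Z (A \ Z) disjoint_sdiff, card_sdiff_of_subset hZ.1, hZ.2, hA]
  rw [sum_congr rfl h3, sum_const, card_powersetCard, hA, nsmul_eq_mul]
  ring

lemma count_p0_lt {n : ℕ} (D : ℕ) (hD : 0 < D) (A : Finset (Fin n)) (t R : ℕ)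
    (hA : A.card = t) (hR : R ≤ t + 1) :
    (((univ : Finset (Fin n → Fin D)).filter (fun g => (p0 g A).card < R)).card : ℝ)
      ≤ (D : ℝ) ^ n * (t.choose (t + 1 - R) * (1 - 1 / (D : ℝ)) ^ (t + 1 - R)) := by
  classical
  have hsub : (univ : Finset (Fin n → Fin D)).filter (fun g => (p0 g A).card < R) ⊆
      (A.powersetCard (t + 1 - R)).biUnion (fun Z => univ.filter
        (fun g => (∀ y ∈ (∅ : Finset (Fin n)), (g y).val = 0) ∧ ∀ y ∈ Z, (g y).val ≠ 0)) := by
    intro g hg
    have hg' := (mem_filter.1 hg).2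
    have hs := card_p0_add_p1 g A
    obtain ⟨Z, hZ, hZc⟩ := exists_subset_card_eq (s := p1 g A) (n := t + 1 - R) (by omega)
    refine mem_biUnion.2 ⟨Z, mem_powersetCard.2 ⟨hZ.trans (p1_sub g A), hZc⟩,
      mem_filter.2 ⟨mem_univ _, by simp, ?_⟩⟩
    intro y hy; exact (mem_filter.1 (hZ hy)).2
  have h1 := (card_le_card hsub).trans card_biUnion_le
  have h2 : (((univ : Finset (Fin n → Fin D)).filter (fun g => (p0 g A).card < R)).card : ℝ) ≤
      ∑ Z ∈ A.powersetCard (t + 1 - R), (((univ : Finset (Fin n → Fin D)).filter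
        (fun g => (∀ y ∈ (∅ : Finset (Fin n)), (g y).val = 0) ∧
          ∀ y ∈ Z, (g y).val ≠ 0)).card : ℝ) := by
    exact_mod_cast h1
  refine h2.trans (le_of_eq ?_)
  have h3 : ∀ Z ∈ A.powersetCard (t + 1 - R), (((univ : Finset (Fin n → Fin D)).filter
        (fun g => (∀ y ∈ (∅ : Finset (Fin n)), (g y).val = 0) ∧
          ∀ y ∈ Z, (g y).val ≠ 0)).card : ℝ)
      = (D : ℝ) ^ n * (1 - 1 / (D : ℝ)) ^ (t + 1 - R) := by
    intro Z hZ
    rw [mem_powersetCard] at hZ
    rw [count_two D hD ∅ Z (disjoint_empty_left _), hZ.2]; simp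
  rw [sum_congr rfl h3, sum_const, card_powersetCard, hA, nsmul_eq_mul]
  ring

lemma count_p0_ge {n : ℕ} (D : ℕ) (hD : 0 < D) (A : Finset (Fin n)) (t a : ℕ)
    (hA : A.card = t) :
    (((univ : Finset (Fin n → Fin D)).filter (fun g => a ≤ (p0 g A).card)).card : ℝ)
      ≤ (D : ℝ) ^ n * (t.choose a * (1 / (D : ℝ)) ^ a) := by
  classical
  have hsub : (univ : Finset (Fin n → Fin D)).filter (fun g => a ≤ (p0 g A).card) ⊆
      (A.powersetCard a).biUnion (fun Z => univ.filter
        (fun g => (∀ y ∈ Z, (g y).val = 0) ∧ ∀ y ∈ (∅ : Finset (Fin n)), (g y).val ≠ 0)) := by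
    intro g hg
    have hg' := (mem_filter.1 hg).2
    obtain ⟨Z, hZ, hZc⟩ := exists_subset_card_eq (s := p0 g A) (n := a) hg'
    refine mem_biUnion.2 ⟨Z, mem_powersetCard.2 ⟨hZ.trans (p0_sub g A), hZc⟩,
      mem_filter.2 ⟨mem_univ _, ?_, by simp⟩⟩
    intro y hy; exact (mem_filter.1 (hZ hy)).2
  have h1 := (card_le_card hsub).trans card_biUnion_le
  have h2 : (((univ : Finset (Fin n → Fin D)).filter (fun g => a ≤ (p0 g A).card)).card : ℝ) ≤
      ∑ Z ∈ A.powersetCard a, (((univ : Finset (Fin n → Fin D)).filter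
        (fun g => (∀ y ∈ Z, (g y).val = 0) ∧
          ∀ y ∈ (∅ : Finset (Fin n)), (g y).val ≠ 0)).card : ℝ) := by
    exact_mod_cast h1
  refine h2.trans (le_of_eq ?_)
  have h3 : ∀ Z ∈ A.powersetCard a, (((univ : Finset (Fin n → Fin D)).filter
        (fun g => (∀ y ∈ Z, (g y).val = 0) ∧
          ∀ y ∈ (∅ : Finset (Fin n)), (g y).val ≠ 0)).card : ℝ)
      = (D : ℝ) ^ n * (1 / (D : ℝ)) ^ a := by
    intro Z hZ
    rw [mem_powersetCard] at hZ
    rw [count_two D hD Z ∅ (disjoint_empty_right _), hZ.2]; simp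
  rw [sum_congr rfl h3, sum_const, card_powersetCard, hA, nsmul_eq_mul]
  ring

/-- the number of `t`-subsets of `V` with `x` elements in the part `0` is a product -/
lemma card_split {n D : ℕ} (g : Fin n → Fin D) (V : Finset (Fin n)) (t x : ℕ) (hx : x ≤ t) :
    ((V.powersetCard t).filter (fun A => (p0 g A).card = x)).card
      = (p0 g V).card.choose x * (p1 g V).card.choose (t - x) := by
  classical
  rw [← card_powersetCard, ← card_powersetCard, ← card_product]
  apply card_nbij' (fun A => (p0 g A, p1 g A)) (fun p => p.1 ∪ p.2)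
  · intro A hA
    simp only [mem_coe, mem_filter, mem_powersetCard] at hA
    simp only [mem_coe, mem_product, mem_powersetCard]
    have hs := card_p0_add_p1 g A
    exact ⟨⟨p0_mono g hA.1.1, hA.2⟩, ⟨filter_subset_filter _ hA.1.1, by omega⟩⟩
  · intro p hp
    simp only [mem_coe, mem_product, mem_powersetCard] at hp
    obtain ⟨h1, h2, h3⟩ := p0_union g hp.1.1 hp.2.1
    simp only [mem_coe, mem_filter, mem_powersetCard]
    refine ⟨⟨union_subset (hp.1.1.trans (p0_sub g V)) (hp.2.1.trans (p1_sub g V)), ?_⟩, ?_⟩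
    · rw [card_union_of_disjoint h3, hp.1.2, hp.2.2]; omega
    · rw [h1, hp.1.2]
  · intro A _
    simp only [p0, p1]
    exact Finset.filter_union_filter_not_eq _ _
  · intro p hp
    simp only [mem_coe, mem_product, mem_powersetCard] at hp
    obtain ⟨h1, h2, _⟩ := p0_union g hp.1.1 hp.2.1
    exact Prod.ext h1 h2

/-- for a fixed map, a family of sets with prescribed part `0` -/
lemma card_split_le {n D : ℕ} (g : Fin n → Fin D) (V : Finset (Fin n)) (t x : ℕ)
    (F : Finset (Finset (Fin n))) :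
    ((V.powersetCard t).filter (fun A => (p0 g A).card = x ∧ p0 g A ∈ F)).card
      ≤ F.card * (p1 g V).card.choose (t - x) := by
  classical
  rw [← card_powersetCard, ← card_product]
  apply card_le_card_of_injOn (fun A => (p0 g A, p1 g A))
  · intro A hA
    simp only [mem_coe, mem_filter, mem_powersetCard] at hA
    simp only [mem_coe, mem_product, mem_powersetCard]
    have hs := card_p0_add_p1 g A
    exact ⟨hA.2.2, ⟨filter_subset_filter _ hA.1.1, by omega⟩⟩
  · intro A _ B _ hAB
    simp only [Prod.mk.injEq] at hAB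
    have h1 : p0 g A ∪ p1 g A = A := by
      simp only [p0, p1]; exact Finset.filter_union_filter_not_eq _ _
    have h2 : p0 g B ∪ p1 g B = B := by
      simp only [p0, p1]; exact Finset.filter_union_filter_not_eq _ _
    rw [← h1, ← h2, hAB.1, hAB.2]

end Pool.Agent.H279R2.Tur
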