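import Pool.Agent.H279R2.Tur.Rec2

/-!
# The random recursion (conclusion)
-/

namespace Pool.Agent.H279R2.Tur

open Finset

/-- `P R x μ`: for all `n` and `V`, there is a system of `x`-sets meeting all `(x+R)`-sets of `V`
of size at most `μ C(|V|,x)/C(x+R,R)`. -/
def P (R x : ℕ) (μ : ℝ) : Prop :=
  ∀ (n : ℕ) (V : Finset (Fin n)), ∃ F, Cov V (x + R) x F ∧
    (F.card : ℝ) * (x + R).choose R ≤ μ * V.card.choose x

open Classical in
lemma count_RG {n D Q : ℕ} (R a t : ℕ) (hat : a ≤ t) (hQ : 0 < Q)
    (F2 : ℕ → Finset (Finset (Fin n))) (g : Fin n → Fin D) (A : Finset (Fin n))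
    (hA : A.card = t) (hRta : R ≤ t - a) :
    (((univ : Finset (Finset (Fin n) → Fin Q)).filter (fun c => RG R a F2 g c A)).card : ℝ) ≤
      (Q : ℝ) ^ (2 ^ n) * (1 / Q + (if (p0 g A).card < R then 1 else 0)
        + (if a ≤ (p0 g A).card then 1 else 0)
        + (if (p0 g A).card < a ∧ p0 g A ∈ F2 (p0 g A).card then
            (1 - 1 / (Q : ℝ)) ^ ((t - a).choose R) else 0)) := by
  classical
  have hcardX : Fintype.card (Finset (Fin n)) = 2 ^ n := by simp
  have hQr : (0 : ℝ) < Q := by exact_mod_cast hQ
  have hQ1 : (1 : ℝ) ≤ Q := by exact_mod_cast hQ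
  have hall : ((univ : Finset (Finset (Fin n) → Fin Q)).card : ℝ) = (Q : ℝ) ^ (2 ^ n) := by
    simp
  have hr0 : (0 : ℝ) ≤ 1 - 1 / (Q : ℝ) := by
    rw [sub_nonneg, div_le_one hQr]; exact hQ1
  have hr1 : 1 - 1 / (Q : ℝ) ≤ 1 := by
    have : 0 ≤ 1 / (Q : ℝ) := by positivity
    linarith
  have hpos : (0 : ℝ) ≤ (Q : ℝ) ^ (2 ^ n) := by positivity
  -- trivial bound when the set is unbalanced
  by_cases h1 : (p0 g A).card < R
  · have h2 : (((univ : Finset (Finset (Fin n) → Fin Q)).filter
        (fun c => RG R a F2 g c A)).card : ℝ) ≤ (Q : ℝ) ^ (2 ^ n) := by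
      rw [← hall]; exact_mod_cast card_filter_le _ _
    refine h2.trans ?_
    have h3 : (0 : ℝ) ≤ 1 / Q := by positivity
    have h4 : (0 : ℝ) ≤ (if a ≤ (p0 g A).card then (1 : ℝ) else 0) := by split_ifs <;> norm_num
    have h5 : (0 : ℝ) ≤ (if (p0 g A).card < a ∧ p0 g A ∈ F2 (p0 g A).card then
            (1 - 1 / (Q : ℝ)) ^ ((t - a).choose R) else 0) := by split_ifs <;> positivity
    rw [if_pos h1]
    nlinarith
  by_cases h1' : a ≤ (p0 g A).card
  · have h2 : (((univ : Finset (Finset (Fin n) → Fin Q)).filter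
        (fun c => RG R a F2 g c A)).card : ℝ) ≤ (Q : ℝ) ^ (2 ^ n) := by
      rw [← hall]; exact_mod_cast card_filter_le _ _
    refine h2.trans ?_
    have h3 : (0 : ℝ) ≤ 1 / Q := by positivity
    have h5 : (0 : ℝ) ≤ (if (p0 g A).card < a ∧ p0 g A ∈ F2 (p0 g A).card then
            (1 - 1 / (Q : ℝ)) ^ ((t - a).choose R) else 0) := by split_ifs <;> positivity
    rw [if_neg h1, if_pos h1']
    nlinarith
  rw [if_neg h1, if_neg h1']
  push Not at h1 h1'
  -- colourings giving colour 0 to `p1 g A`
  have hzero : (((univ : Finset (Finset (Fin n) → Fin Q)).filter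
      (fun c => (c (p1 g A)).val = 0)).card : ℝ) = (Q : ℝ) ^ (2 ^ n) * (1 / Q) := by
    have h2 := count_colour (X := Finset (Fin n)) Q hQ {p1 g A}
    have h3 := Finset.card_filter_add_card_filter_not
      (s := (univ : Finset (Finset (Fin n) → Fin Q))) (fun c => (c (p1 g A)).val = 0)
    have h4 : (univ : Finset (Finset (Fin n) → Fin Q)).filter
        (fun c => ¬ (c (p1 g A)).val = 0) = univ.filter
          (fun c => ∀ y ∈ ({p1 g A} : Finset (Finset (Fin n))), (c y).val ≠ 0) := by
      ext c; simp
    rw [h4] at h3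
    rw [hcardX, card_singleton, pow_one] at h2
    have h5 : (((univ : Finset (Finset (Fin n) → Fin Q)).filter
      (fun c => (c (p1 g A)).val = 0)).card : ℝ) + (((univ : Finset (Finset (Fin n) → Fin Q)).filter
          (fun c => ∀ y ∈ ({p1 g A} : Finset (Finset (Fin n))), (c y).val ≠ 0)).card : ℝ)
        = (Q : ℝ) ^ (2 ^ n) := by rw [← hall]; exact_mod_cast h3
    rw [h2] at h5
    linarith
  by_cases h6 : (p0 g A).card < a ∧ p0 g A ∈ F2 (p0 g A).card
  · rw [if_pos h6]
    have hp1c : (p1 g A).card = t - (p0 g A).card := by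
      have := card_p0_add_p1 g A; omega
    set S := (p1 g A).powersetCard ((p1 g A).card - R) with hS
    have hScard : (t - a).choose R ≤ S.card := by
      rw [hS, card_powersetCard, Nat.choose_symm (by omega)]
      exact Nat.choose_le_choose R (by omega)
    have hsub : (univ : Finset (Finset (Fin n) → Fin Q)).filter (fun c => RG R a F2 g c A) ⊆
        (univ.filter (fun c => (c (p1 g A)).val = 0)) ∪
        (univ.filter (fun c => ∀ y ∈ S, (c y).val ≠ 0)) := by
      intro c hc
      rcases (mem_filter.1 hc).2 with h | h | h | h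
      · exact mem_union_left _ (mem_filter.2 ⟨mem_univ _, h⟩)
      · omega
      · omega
      · refine mem_union_right _ (mem_filter.2 ⟨mem_univ _, ?_⟩)
        intro y hy
        rw [hS, mem_powersetCard] at hy
        exact h.2.1 y hy.1 (by omega)
    have h7 : (((univ : Finset (Finset (Fin n) → Fin Q)).filter
        (fun c => RG R a F2 g c A)).card : ℝ) ≤
        (((univ : Finset (Finset (Fin n) → Fin Q)).filter
          (fun c => (c (p1 g A)).val = 0)).card : ℝ) +
        (((univ : Finset (Finset (Fin n) → Fin Q)).filter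
          (fun c => ∀ y ∈ S, (c y).val ≠ 0)).card : ℝ) := by
      exact_mod_cast (card_le_card hsub).trans (card_union_le _ _)
    rw [hzero, count_colour Q hQ S, hcardX] at h7
    have h8 : (1 - 1 / (Q : ℝ)) ^ S.card ≤ (1 - 1 / (Q : ℝ)) ^ ((t - a).choose R) :=
      pow_le_pow_of_le_one hr0 hr1 hScard
    have h9 := mul_le_mul_of_nonneg_left h8 hpos
    linarith
  · rw [if_neg h6]
    have hsub : (univ : Finset (Finset (Fin n) → Fin Q)).filter (fun c => RG R a F2 g c A) ⊆
        (univ.filter (fun c => (c (p1 g A)).val = 0)) := by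
      intro c hc
      rcases (mem_filter.1 hc).2 with h | h | h | h
      · exact (mem_filter.2 ⟨mem_univ _, h⟩)
      · omega
      · omega
      · exact absurd ⟨h.1, h.2.2⟩ h6
    have h7 : (((univ : Finset (Finset (Fin n) → Fin Q)).filter
        (fun c => RG R a F2 g c A)).card : ℝ) ≤
        (((univ : Finset (Finset (Fin n) → Fin Q)).filter
          (fun c => (c (p1 g A)).val = 0)).card : ℝ) := by
      exact_mod_cast (card_le_card hsub)
    rw [hzero] at h7
    linarith

theorem recursion (R a t D Q : ℕ) (hR : 1 ≤ R) (hRt : R + a ≤ t) (hD : 0 < D)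
    (hQ : 0 < Q) (μ : ℝ) (hμ : 0 ≤ μ) (IH : ∀ x < a, P R x μ) :
    P R t ((t + R).choose R * (1 / Q + t.choose (t + 1 - R) * (1 - 1 / (D : ℝ)) ^ (t + 1 - R)
        + t.choose a * (1 / (D : ℝ)) ^ a) +
        μ * (D : ℝ) ^ R * (1 - 1 / (Q : ℝ)) ^ ((t - a).choose R)) := by
  classical
  intro n V
  set r : ℝ := (1 - 1 / (Q : ℝ)) ^ ((t - a).choose R) with hr
  have hQr : (0 : ℝ) < Q := by exact_mod_cast hQ
  have hQ1 : (1 : ℝ) ≤ Q := by exact_mod_cast hQ
  have hDr : (0 : ℝ) < D := by exact_mod_cast hD
  have hD1 : (1 : ℝ) ≤ D := by exact_mod_cast hD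
  have hd0 : (0 : ℝ) ≤ 1 - 1 / (D : ℝ) := by
    rw [sub_nonneg, div_le_one hDr]; exact hD1
  have hr0 : 0 ≤ r := by
    rw [hr]
    have : (0 : ℝ) ≤ 1 - 1 / (Q : ℝ) := by
      rw [sub_nonneg, div_le_one hQr]; exact hQ1
    positivity
  -- the systems on the parts
  have hex : ∀ (g : Fin n → Fin D) (x : ℕ), ∃ F, x < a → (Cov (p0 g V) (x + R) x F ∧
      (F.card : ℝ) * (x + R).choose R ≤ μ * (p0 g V).card.choose x) := by
    intro g x
    by_cases hx : x < a
    · obtain ⟨F, hF⟩ := IH x hx n (p0 g V)
      exact ⟨F, fun _ => hF⟩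
    · exact ⟨∅, fun h => absurd h hx⟩
  choose F2 hF2 using hex
  set FF : (Fin n → Fin D) → (Finset (Fin n) → Fin Q) → Finset (Finset (Fin n)) :=
    fun g c => (V.powersetCard t).filter (fun A => RG R a (F2 g) g c A) with hFF
  set v := V.card with hv
  set W : ℝ := 1 / Q + t.choose (t + 1 - R) * (1 - 1 / (D : ℝ)) ^ (t + 1 - R)
        + t.choose a * (1 / (D : ℝ)) ^ a with hW
  set Ctot : ℝ := ((t + R).choose R : ℝ) with hCtot
  have hCpos : 0 < Ctot := by
    rw [hCtot]; exact_mod_cast Nat.choose_pos (by omega)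
  set N : ℝ := (D : ℝ) ^ n * (Q : ℝ) ^ (2 ^ n) with hN
  -- for a fixed map
  have hg : ∀ g : Fin n → Fin D, ∑ c : Finset (Fin n) → Fin Q, ((FF g c).card : ℝ) ≤
      ∑ A ∈ V.powersetCard t, (Q : ℝ) ^ (2 ^ n) * (1 / Q +
        (if (p0 g A).card < R then 1 else 0)
        + (if a ≤ (p0 g A).card then 1 else 0)
        + (if (p0 g A).card < a ∧ p0 g A ∈ F2 g (p0 g A).card then r else 0)) := by
    intro g
    have h1 : ∑ c : Finset (Fin n) → Fin Q, (FF g c).card =
        ∑ A ∈ V.powersetCard t, ((univ : Finset (Finset (Fin n) → Fin Q)).filter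
          (fun c => RG R a (F2 g) g c A)).card := by
      have := Finset.sum_card_bipartiteAbove_eq_sum_card_bipartiteBelow
        (s := (univ : Finset (Finset (Fin n) → Fin Q))) (t := V.powersetCard t)
        (fun c A => RG R a (F2 g) g c A)
      simpa [Finset.bipartiteAbove, Finset.bipartiteBelow] using this
    have h2 : ∑ c : Finset (Fin n) → Fin Q, ((FF g c).card : ℝ) =
        ∑ A ∈ V.powersetCard t, (((univ : Finset (Finset (Fin n) → Fin Q)).filter
          (fun c => RG R a (F2 g) g c A)).card : ℝ) := by exact_mod_cast h1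
    rw [h2]
    apply sum_le_sum
    intro A hA
    exact count_RG R a t (by omega) hQ (F2 g) g A (mem_powersetCard.1 hA).2 (by omega)
  -- the four contributions
  have hS2 : ∑ g : Fin n → Fin D, ∑ A ∈ V.powersetCard t,
      (if (p0 g A).card < R then (1 : ℝ) else 0) ≤
      (v.choose t : ℝ) * ((D : ℝ) ^ n * (t.choose (t + 1 - R) *
        (1 - 1 / (D : ℝ)) ^ (t + 1 - R))) := by
    rw [sum_comm]
    calc ∑ A ∈ V.powersetCard t, ∑ g : Fin n → Fin D, (if (p0 g A).card < R then (1 : ℝ) else 0)
        ≤ ∑ A ∈ V.powersetCard t, ((D : ℝ) ^ n * (t.choose (t + 1 - R) *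
            (1 - 1 / (D : ℝ)) ^ (t + 1 - R))) := by
          apply sum_le_sum
          intro A hA
          have := count_p0_lt D hD A t R (mem_powersetCard.1 hA).2 (by omega)
          rw [← sum_filter, sum_const, nsmul_eq_mul, mul_one]
          exact this
      _ = _ := by rw [sum_const, card_powersetCard, nsmul_eq_mul]
  have hS3 : ∑ g : Fin n → Fin D, ∑ A ∈ V.powersetCard t,
      (if a ≤ (p0 g A).card then (1 : ℝ) else 0) ≤
      (v.choose t : ℝ) * ((D : ℝ) ^ n * (t.choose a * (1 / (D : ℝ)) ^ a)) := by
    rw [sum_comm]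
    calc ∑ A ∈ V.powersetCard t, ∑ g : Fin n → Fin D, (if a ≤ (p0 g A).card then (1 : ℝ) else 0)
        ≤ ∑ A ∈ V.powersetCard t, ((D : ℝ) ^ n * (t.choose a * (1 / (D : ℝ)) ^ a)) := by
          apply sum_le_sum
          intro A hA
          have := count_p0_ge D hD A t a (mem_powersetCard.1 hA).2
          rw [← sum_filter, sum_const, nsmul_eq_mul, mul_one]
          exact this
      _ = _ := by rw [sum_const, card_powersetCard, nsmul_eq_mul]
  have hS4 : (∑ g : Fin n → Fin D, ∑ A ∈ V.powersetCard t,
      (if (p0 g A).card < a ∧ p0 g A ∈ F2 g (p0 g A).card then r else 0)) * Ctot ≤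
      (v.choose t : ℝ) * ((D : ℝ) ^ n * (μ * (D : ℝ) ^ R * r)) := by
    have h1 : ∀ g : Fin n → Fin D, (∑ A ∈ V.powersetCard t,
        (if (p0 g A).card < a ∧ p0 g A ∈ F2 g (p0 g A).card then r else 0)) * Ctot ≤
        ∑ x ∈ range a, μ * r * ((t + R).choose (x + R) / t.choose x) *
          (((V.powersetCard t).filter (fun A => (p0 g A).card = x)).card : ℝ) := by
      intro g
      have h2 : ∑ A ∈ V.powersetCard t,
          (if (p0 g A).card < a ∧ p0 g A ∈ F2 g (p0 g A).card then r else 0) ≤
          ∑ x ∈ range a, ((F2 g x).card : ℝ) * (p1 g V).card.choose (t - x) * r := by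
        calc ∑ A ∈ V.powersetCard t,
              (if (p0 g A).card < a ∧ p0 g A ∈ F2 g (p0 g A).card then r else 0)
            = ∑ A ∈ V.powersetCard t, ∑ x ∈ range a,
                (if (p0 g A).card = x ∧ p0 g A ∈ F2 g x then r else 0) := by
              apply sum_congr rfl
              intro A _
              by_cases hA : (p0 g A).card < a
              · rw [sum_eq_single (p0 g A).card]
                · simp [hA]
                · intro x _ hx
                  rw [if_neg (fun h => hx h.1.symm)]
                · intro h; exact absurd (mem_range.2 hA) h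
              · rw [if_neg (fun h => hA h.1)]
                symm
                apply sum_eq_zero
                intro x hx
                rw [if_neg]
                intro h
                have := mem_range.1 hx
                omega
          _ = ∑ x ∈ range a, ∑ A ∈ V.powersetCard t,
                (if (p0 g A).card = x ∧ p0 g A ∈ F2 g x then r else 0) := sum_comm
          _ ≤ ∑ x ∈ range a, ((F2 g x).card : ℝ) * (p1 g V).card.choose (t - x) * r := by
              apply sum_le_sum
              intro x _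
              rw [← sum_filter, sum_const, nsmul_eq_mul]
              refine mul_le_mul_of_nonneg_right ?_ hr0
              exact_mod_cast card_split_le g V t x (F2 g x)
      refine (mul_le_mul_of_nonneg_right h2 hCpos.le).trans ?_
      rw [sum_mul]
      apply sum_le_sum
      intro x hx
      have hxa := mem_range.1 hx
      have h3 := (hF2 g x hxa).2
      have hxt : x ≤ t := by omega
      rw [card_split g V t x hxt]
      have hc1 : (0 : ℝ) < (x + R).choose R := by exact_mod_cast Nat.choose_pos (by omega)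
      have hc2 : (0 : ℝ) < t.choose x := by exact_mod_cast Nat.choose_pos hxt
      -- the binomial identity
      have hid : (t.choose x : ℝ) * Ctot = (t + R).choose (x + R) * (x + R).choose R := by
        have h4 := Nat.choose_mul (n := t + R) (k := x + R) (s := R) (by omega)
        have h5 : (t + R - R) = t := by omega
        have h6 : (x + R - R) = x := by omega
        rw [h5, h6] at h4
        rw [hCtot]
        have : ((t + R).choose (x + R) : ℝ) * (x + R).choose R = (t + R).choose R * t.choose x := by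
          exact_mod_cast h4
        rw [this]; ring
      have h7 : ((F2 g x).card : ℝ) ≤ μ * (p0 g V).card.choose x / (x + R).choose R := by
        rw [le_div_iff₀ hc1]; exact h3
      have h8 : Ctot / (x + R).choose R = (t + R).choose (x + R) / t.choose x := by
        rw [div_eq_div_iff hc1.ne' hc2.ne']
        linarith [hid]
      calc ((F2 g x).card : ℝ) * (p1 g V).card.choose (t - x) * r * Ctot
          ≤ (μ * (p0 g V).card.choose x / (x + R).choose R) *
              (p1 g V).card.choose (t - x) * r * Ctot := by gcongr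
        _ = μ * r * (Ctot / (x + R).choose R) *
              ((p0 g V).card.choose x * (p1 g V).card.choose (t - x)) := by ring
        _ = _ := by rw [h8]; push_cast; ring
    calc (∑ g : Fin n → Fin D, ∑ A ∈ V.powersetCard t,
        (if (p0 g A).card < a ∧ p0 g A ∈ F2 g (p0 g A).card then r else 0)) * Ctot
        = ∑ g : Fin n → Fin D, (∑ A ∈ V.powersetCard t,
        (if (p0 g A).card < a ∧ p0 g A ∈ F2 g (p0 g A).card then r else 0)) * Ctot := by
          rw [sum_mul]
      _ ≤ ∑ g : Fin n → Fin D, ∑ x ∈ range a, μ * r * ((t + R).choose (x + R) / t.choose x) *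
          (((V.powersetCard t).filter (fun A => (p0 g A).card = x)).card : ℝ) :=
          sum_le_sum (fun g _ => h1 g)
      _ = ∑ x ∈ range a, μ * r * ((t + R).choose (x + R) / t.choose x) *
          (∑ g : Fin n → Fin D,
            (((V.powersetCard t).filter (fun A => (p0 g A).card = x)).card : ℝ)) := by
          rw [sum_comm]
          apply sum_congr rfl
          intro x _
          rw [mul_sum]
      _ ≤ ∑ x ∈ range a, μ * r * ((t + R).choose (x + R) / t.choose x) *
          ((v.choose t : ℝ) * ((D : ℝ) ^ n * (t.choose x * ((1 / (D : ℝ)) ^ x *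
            (1 - 1 / (D : ℝ)) ^ (t - x))))) := by
          apply sum_le_sum
          intro x hx
          refine mul_le_mul_of_nonneg_left ?_ (by positivity)
          have h9 : ∑ g : Fin n → Fin D,
              ((V.powersetCard t).filter (fun A => (p0 g A).card = x)).card =
              ∑ A ∈ V.powersetCard t, ((univ : Finset (Fin n → Fin D)).filter
                (fun g => (p0 g A).card = x)).card := by
            have := Finset.sum_card_bipartiteAbove_eq_sum_card_bipartiteBelow
              (s := (univ : Finset (Fin n → Fin D))) (t := V.powersetCard t)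
              (fun g A => (p0 g A).card = x)
            simpa [Finset.bipartiteAbove, Finset.bipartiteBelow] using this
          have h10 : ∑ g : Fin n → Fin D,
              (((V.powersetCard t).filter (fun A => (p0 g A).card = x)).card : ℝ) =
              ∑ A ∈ V.powersetCard t, (((univ : Finset (Fin n → Fin D)).filter
                (fun g => (p0 g A).card = x)).card : ℝ) := by exact_mod_cast h9
          rw [h10]
          calc _ ≤ ∑ A ∈ V.powersetCard t, ((D : ℝ) ^ n * (t.choose x * ((1 / (D : ℝ)) ^ x *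
                (1 - 1 / (D : ℝ)) ^ (t - x)))) := by
                apply sum_le_sum
                intro A hA
                exact count_p0_eq D hD A t x (mem_powersetCard.1 hA).2
            _ = _ := by rw [sum_const, card_powersetCard, nsmul_eq_mul]
      _ = (v.choose t : ℝ) * ((D : ℝ) ^ n * (μ * (D : ℝ) ^ R * r)) *
          ∑ x ∈ range a, ((t + R).choose (x + R) : ℝ) * ((1 / (D : ℝ)) ^ (x + R) *
            (1 - 1 / (D : ℝ)) ^ (t + R - (x + R))) := by
          rw [mul_sum]
          apply sum_congr rfl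
          intro x hx
          have hxt : x ≤ t := by have := mem_range.1 hx; omega
          have hc2 : (t.choose x : ℝ) ≠ 0 := by
            have : 0 < t.choose x := Nat.choose_pos hxt
            exact_mod_cast this.ne'
          have h11 : (1 / (D : ℝ)) ^ (x + R) * (D : ℝ) ^ R = (1 / (D : ℝ)) ^ x := by
            rw [pow_add, mul_assoc, ← mul_pow]
            have : 1 / (D : ℝ) * D = 1 := by field_simp
            rw [this, one_pow, mul_one]
          have h12 : t + R - (x + R) = t - x := by omega
          rw [h12, ← h11]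
          field_simp
      _ ≤ (v.choose t : ℝ) * ((D : ℝ) ^ n * (μ * (D : ℝ) ^ R * r)) * 1 := by
          refine mul_le_mul_of_nonneg_left ?_ (by positivity)
          have h14 : (1 / (D : ℝ) + (1 - 1 / (D : ℝ))) ^ (t + R) = 1 := by
            rw [add_sub_cancel]; simp
          calc ∑ x ∈ range a, ((t + R).choose (x + R) : ℝ) * ((1 / (D : ℝ)) ^ (x + R) *
            (1 - 1 / (D : ℝ)) ^ (t + R - (x + R)))
              = ∑ y ∈ (range a).image (fun x => x + R), ((t + R).choose y : ℝ) *
                  ((1 / (D : ℝ)) ^ y * (1 - 1 / (D : ℝ)) ^ (t + R - y)) := by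
                rw [sum_image]
                intro x _ y _ hxy
                simpa using hxy
            _ ≤ ∑ y ∈ range (t + R + 1), ((t + R).choose y : ℝ) *
                  ((1 / (D : ℝ)) ^ y * (1 - 1 / (D : ℝ)) ^ (t + R - y)) := by
                apply sum_le_sum_of_subset_of_nonneg
                · intro y hy
                  obtain ⟨x, hx, rfl⟩ := mem_image.1 hy
                  have := mem_range.1 hx
                  rw [mem_range]; omega
                · intro y _ _; positivity
            _ = (1 / (D : ℝ) + (1 - 1 / (D : ℝ))) ^ (t + R) := by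
                rw [add_pow]
                apply sum_congr rfl
                intro y _
                ring
            _ = 1 := h14
      _ = _ := by ring
  -- total
  have htotal : (∑ p : (Fin n → Fin D) × (Finset (Fin n) → Fin Q), ((FF p.1 p.2).card : ℝ)) * Ctot
      ≤ N * ((v.choose t : ℝ) * (Ctot * W + μ * (D : ℝ) ^ R * r)) := by
    rw [Fintype.sum_prod_type]
    have h1 : ∑ g : Fin n → Fin D, ∑ c : Finset (Fin n) → Fin Q, ((FF g c).card : ℝ) ≤
        (Q : ℝ) ^ (2 ^ n) * ((v.choose t : ℝ) * ((D : ℝ) ^ n * (1 / Q)) +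
          (∑ g : Fin n → Fin D, ∑ A ∈ V.powersetCard t,
            (if (p0 g A).card < R then (1 : ℝ) else 0)) +
          (∑ g : Fin n → Fin D, ∑ A ∈ V.powersetCard t,
            (if a ≤ (p0 g A).card then (1 : ℝ) else 0)) +
          (∑ g : Fin n → Fin D, ∑ A ∈ V.powersetCard t,
            (if (p0 g A).card < a ∧ p0 g A ∈ F2 g (p0 g A).card then r else 0))) := by
      refine (sum_le_sum (fun g _ => hg g)).trans (le_of_eq ?_)
      simp_rw [← mul_sum, sum_add_distrib]
      simp only [sum_const, card_powersetCard, nsmul_eq_mul, Finset.card_univ, Fintype.card_fun,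
        Fintype.card_fin]
      push_cast
      ring
    have h2 : (∑ g : Fin n → Fin D, ∑ c : Finset (Fin n) → Fin Q, ((FF g c).card : ℝ)) * Ctot ≤
        ((Q : ℝ) ^ (2 ^ n) * ((v.choose t : ℝ) * ((D : ℝ) ^ n * (1 / Q)) +
          (v.choose t : ℝ) * ((D : ℝ) ^ n * (t.choose (t + 1 - R) *
            (1 - 1 / (D : ℝ)) ^ (t + 1 - R))) +
          (v.choose t : ℝ) * ((D : ℝ) ^ n * (t.choose a * (1 / (D : ℝ)) ^ a)))) * Ctot +
          (Q : ℝ) ^ (2 ^ n) * ((v.choose t : ℝ) * ((D : ℝ) ^ n * (μ * (D : ℝ) ^ R * r))) := by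
      have hQn : (0 : ℝ) ≤ (Q : ℝ) ^ (2 ^ n) := by positivity
      have h3 := mul_le_mul_of_nonneg_right h1 hCpos.le
      refine h3.trans ?_
      have h4 := mul_le_mul_of_nonneg_left hS4 hQn
      have h5 := mul_le_mul_of_nonneg_left (mul_le_mul_of_nonneg_right hS2 hCpos.le) hQn
      have h6 := mul_le_mul_of_nonneg_left (mul_le_mul_of_nonneg_right hS3 hCpos.le) hQn
      linarith
    refine h2.trans (le_of_eq ?_)
    rw [hN, hW]
    ring
  -- existence
  have hDfin : Nonempty (Fin D) := ⟨⟨0, hD⟩⟩
  have hQfin : Nonempty (Fin Q) := ⟨⟨0, hQ⟩⟩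
  have hcardpair : (∑ p : (Fin n → Fin D) × (Finset (Fin n) → Fin Q),
      ((v.choose t : ℝ) * (Ctot * W + μ * (D : ℝ) ^ R * r))) =
      N * ((v.choose t : ℝ) * (Ctot * W + μ * (D : ℝ) ^ R * r)) := by
    rw [sum_const, Finset.card_univ, hN]
    simp only [nsmul_eq_mul, Fintype.card_prod, Fintype.card_fun, Fintype.card_fin,
      Fintype.card_finset]
    push_cast
    ring
  rw [← hcardpair, sum_mul] at htotal
  obtain ⟨p, -, hp⟩ := Finset.exists_le_of_sum_le
    (s := (univ : Finset ((Fin n → Fin D) × (Finset (Fin n) → Fin Q)))) univ_nonempty htotal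
  refine ⟨FF p.1 p.2, ⟨?_, ?_⟩, ?_⟩
  · intro A hA
    exact mem_powersetCard.1 (mem_filter.1 hA).1
  · intro K hKV hKc
    obtain ⟨A, hAK, hAc, hAg⟩ := exists_RG R a t V p.1 (F2 p.1)
      (fun x hx => (hF2 p.1 x hx).1) p.2 K hKV hKc
    exact ⟨A, mem_filter.2 ⟨mem_powersetCard.2 ⟨hAK.trans hKV, hAc⟩, hAg⟩, hAK⟩
  · refine hp.trans (le_of_eq ?_)
    ring

end Pool.Agent.H279R2.Tur
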