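import Pool.Agent.H279R2.Tur.Main
import Pool.Agent.H279R2.Tur.Rec3

/-!
# Solving the recursion
-/

namespace Pool.Agent.H279R2.Tur

open Finset Nat

lemma P_mono {R x : ℕ} {μ μ' : ℝ} (h : P R x μ) (hμ : μ ≤ μ') : P R x μ' := by
  intro n V
  obtain ⟨F, hF, hc⟩ := h n V
  exact ⟨F, hF, hc.trans (mul_le_mul_of_nonneg_right hμ (by positivity))⟩

lemma P_zero (R : ℕ) : P R 0 1 := by
  intro n V
  refine ⟨{∅}, ⟨by simp, ?_⟩, by simp⟩
  intro K _ _
  exact ⟨∅, by simp, by simp⟩

lemma P_one (R : ℕ) : P R 1 (R + 1) := by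
  intro n V
  refine ⟨V.powersetCard 1, ⟨?_, ?_⟩, ?_⟩
  · intro A hA; exact mem_powersetCard.1 hA
  · intro K hK hKc
    obtain ⟨A, hA, hAc⟩ := exists_subset_card_eq (s := K) (n := 1) (by omega)
    exact ⟨A, mem_powersetCard.2 ⟨hA.trans hK, hAc⟩, hA⟩
  · rw [card_powersetCard]
    have h : (1 + R).choose R = R + 1 := by
      rw [add_comm]; exact Nat.choose_succ_self_right R
    rw [h]; push_cast
    apply le_of_eq; ring

lemma P_base (R t : ℕ) (hR : 1 ≤ R) (ht : 2 ≤ t) : P R t (5 + 6 * R * Real.log (t + R)) := by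
  intro n V
  obtain ⟨F, hF, hc⟩ := main_bound n (t + R) t ht (by omega) V
  refine ⟨F, hF, ?_⟩
  have h1 : (t + R).choose R = (t + R).choose t := by
    rw [Nat.choose_symm_add]
  rw [h1]
  refine hc.trans (le_of_eq ?_)
  push_cast
  ring

lemma log_two_lo : (0.6931 : ℝ) ≤ Real.log 2 := by
  have := Real.log_two_gt_d9; norm_num at this ⊢; linarith
lemma log_two_hi : Real.log 2 ≤ (0.6932 : ℝ) := by
  have := Real.log_two_lt_d9; norm_num at this ⊢; linarith

lemma logR1 (R : ℕ) (hR : 1 ≤ R) : (0.6931 : ℝ) ≤ Real.log (R + 1) := by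
  have h1 : (2 : ℝ) ≤ (R : ℝ) + 1 := by
    have : (1 : ℝ) ≤ R := by exact_mod_cast hR
    linarith
  exact log_two_lo.trans (Real.log_le_log (by norm_num) h1)

lemma logR_le (R : ℕ) (hR : 1 ≤ R) : Real.log R ≤ Real.log (R + 1) := by
  have : (1 : ℝ) ≤ R := by exact_mod_cast hR
  exact Real.log_le_log (by linarith) (by linarith)

/-- the bound of the theorem -/
noncomputable def muR (R : ℕ) : ℝ := 100 * R * Real.log (R + 1)

lemma small_case (R t : ℕ) (hR : 1 ≤ R) (ht2 : 1 ≤ t) (ht : t < 256 * R ^ 3) :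
    5 + 6 * R * Real.log (t + R) ≤ muR R := by
  have hRr : (1 : ℝ) ≤ R := by exact_mod_cast hR
  have h1 : ((t : ℝ) + R) ≤ 2 ^ 9 * (R : ℝ) ^ 3 := by
    have h2 : (t : ℝ) ≤ 256 * (R : ℝ) ^ 3 := by exact_mod_cast ht.le
    have h3 : (R : ℝ) ≤ (R : ℝ) ^ 3 := by
      calc (R : ℝ) = (R : ℝ) ^ 1 := (pow_one _).symm
        _ ≤ (R : ℝ) ^ 3 := pow_le_pow_right₀ hRr (by norm_num)
    nlinarith
  have hpos : (0 : ℝ) < (t : ℝ) + R := by positivity
  have h4 : Real.log (t + R) ≤ 9 * Real.log 2 + 3 * Real.log R := by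
    calc Real.log (t + R) ≤ Real.log (2 ^ 9 * (R : ℝ) ^ 3) := Real.log_le_log hpos h1
      _ = 9 * Real.log 2 + 3 * Real.log R := by
          rw [Real.log_mul (by positivity) (by positivity), Real.log_pow, Real.log_pow]
          norm_num
  have h5 := logR1 R hR
  have h6 := logR_le R hR
  have h7 := log_two_hi
  unfold muR
  have h8 : 6 * R * Real.log (t + R) ≤ 6 * R * (9 * Real.log 2 + 3 * Real.log R) :=
    mul_le_mul_of_nonneg_left h4 (by positivity)
  have h9 : 5 + 6 * R * (9 * Real.log 2 + 3 * Real.log R) ≤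
      (R : ℝ) * (5 + 54 * 0.6932 + 18 * Real.log (R + 1)) := by
    nlinarith
  have h10 : (5 + 54 * 0.6932 + 18 * Real.log ((R : ℝ) + 1)) ≤ 100 * Real.log (R + 1) := by
    nlinarith
  have h11 : (R : ℝ) * (5 + 54 * 0.6932 + 18 * Real.log (R + 1)) ≤
      R * (100 * Real.log (R + 1)) := mul_le_mul_of_nonneg_left h10 (by positivity)
  linarith

lemma key_t (R t : ℕ) (hR : 1 ≤ R) (ht : 256 * R ^ 3 ≤ t) :
    16 * (R : ℝ) ^ 2 * Real.log (2 * t) ≤ t - R := by
  have hRr : (1 : ℝ) ≤ R := by exact_mod_cast hR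
  have htr : 256 * (R : ℝ) ^ 3 ≤ t := by exact_mod_cast ht
  have htpos : (0 : ℝ) < t := by
    have : (0 : ℝ) < 256 * (R : ℝ) ^ 3 := by positivity
    linarith
  have hlogR : Real.log R ≤ R - 1 := Real.log_le_sub_one_of_pos (by linarith)
  have h1 : Real.log (2 * t) ≤ 2 * t / (64 * (R : ℝ) ^ 2) - 1 + (6 * Real.log 2 + 2 * Real.log R) := by
    have h2 : Real.log (2 * t) = Real.log (2 * t / (64 * (R : ℝ) ^ 2)) +
        Real.log (64 * (R : ℝ) ^ 2) := by
      rw [← Real.log_mul (by positivity) (by positivity)]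
      congr 1; field_simp
    have h3 : Real.log (64 * (R : ℝ) ^ 2) = 6 * Real.log 2 + 2 * Real.log R := by
      rw [Real.log_mul (by positivity) (by positivity), Real.log_pow]
      have : (64 : ℝ) = 2 ^ 6 := by norm_num
      rw [this, Real.log_pow]; norm_num
    have h4 : Real.log (2 * t / (64 * (R : ℝ) ^ 2)) ≤ 2 * t / (64 * (R : ℝ) ^ 2) - 1 :=
      Real.log_le_sub_one_of_pos (by positivity)
    rw [h2, h3]; linarith
  have h5 := log_two_hi
  have h6 : 16 * (R : ℝ) ^ 2 * (2 * t / (64 * (R : ℝ) ^ 2)) = t / 2 := by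
    field_simp; ring
  have h7 : 16 * (R : ℝ) ^ 2 * Real.log (2 * t) ≤
      16 * (R : ℝ) ^ 2 * (2 * t / (64 * (R : ℝ) ^ 2) - 1 + (6 * 0.6932 + 2 * (R - 1))) := by
    refine mul_le_mul_of_nonneg_left ?_ (by positivity)
    linarith
  have h8 : 16 * (R : ℝ) ^ 2 * (2 * t / (64 * (R : ℝ) ^ 2) - 1 + (6 * 0.6932 + 2 * (R - 1))) =
      t / 2 + 16 * (R : ℝ) ^ 2 * (6 * 0.6932 - 3 + 2 * R) := by
    rw [← h6]; ring
  have h9 : (R : ℝ) ^ 2 ≤ (R : ℝ) ^ 3 := pow_le_pow_right₀ hRr (by norm_num)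
  have h10 : (R : ℝ) ≤ (R : ℝ) ^ 3 := by
    calc (R : ℝ) = (R : ℝ) ^ 1 := (pow_one _).symm
      _ ≤ (R : ℝ) ^ 3 := pow_le_pow_right₀ hRr (by norm_num)
  have h11 : 16 * (R : ℝ) ^ 2 * (6 * 0.6932 - 3 + 2 * R) =
      16 * (6 * 0.6932 - 3) * (R : ℝ) ^ 2 + 32 * (R : ℝ) ^ 3 := by ring
  nlinarith

/-- the inductive step -/
lemma large_case (R t : ℕ) (hR : 1 ≤ R) (ht : 256 * R ^ 3 ≤ t)
    (IH : ∀ x < t, P R x (muR R)) : P R t (muR R) := by
  have hRr : (1 : ℝ) ≤ R := by exact_mod_cast hR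
  have hR3 : R ≤ R ^ 3 := Nat.le_self_pow (by norm_num) R
  have htR : 256 * R ≤ t := by omega
  have htr : 256 * (R : ℝ) ^ 3 ≤ t := by exact_mod_cast ht
  have htRr : 256 * (R : ℝ) ≤ t := by exact_mod_cast htR
  have htpos : (0 : ℝ) < t := by linarith
  set a := t / (2 * R) + 1 with ha
  have ha1 : (t : ℝ) / (2 * R) ≤ a := by
    have h := Nat.lt_div_mul_add (a := t) (b := 2 * R) (by omega)
    rw [div_le_iff₀ (by positivity)]
    have h2 : t ≤ a * (2 * R) := by
      rw [ha, add_mul, one_mul]; exact h.le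
    exact_mod_cast h2
  have ha2 : (a : ℝ) ≤ t / (2 * R) + 1 := by
    rw [ha]; push_cast
    have := Nat.cast_div_le (α := ℝ) (m := t) (n := 2 * R)
    push_cast at this
    linarith
  have hat : a + 2 * R ≤ t := by
    have h1 : t / (2 * R) ≤ t / 2 := Nat.div_le_div_left (by omega) (by norm_num)
    omega
  set C : ℝ := ((t + R).choose R : ℝ) with hC
  set y : ℝ := 5 / 2 * (R * Real.log (8 * R) + Real.log 4) with hy
  have hlog8 : Real.log (8 * R) = 3 * Real.log 2 + Real.log R := by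
    rw [Real.log_mul (by norm_num) (by positivity)]
    have : (8 : ℝ) = 2 ^ 3 := by norm_num
    rw [this, Real.log_pow]; norm_num
  have hlog4 : Real.log 4 = 2 * Real.log 2 := by
    have : (4 : ℝ) = 2 ^ 2 := by norm_num
    rw [this, Real.log_pow]; norm_num
  have hlo := log_two_lo
  have hhi := log_two_hi
  have hlogR0 : 0 ≤ Real.log R := Real.log_nonneg hRr
  have hlogR : Real.log R ≤ R - 1 := Real.log_le_sub_one_of_pos (by linarith)
  have hypos : 0 < y := by
    rw [hy, hlog8, hlog4]; positivity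
  have hyub : 2 * y ≤ (R : ℝ) * (18 + 5 * Real.log R) := by
    rw [hy, hlog8, hlog4]; nlinarith
  have hCt : (t : ℝ) + 1 ≤ C := by
    have h1 : t + 1 ≤ (t + R).choose R := by
      rw [← Nat.choose_symm_add]
      calc t + 1 = (t + 1).choose t := by simp
        _ ≤ (t + R).choose t := Nat.choose_le_choose t (by omega)
    rw [hC]; exact_mod_cast h1
  have hCpos : 0 < C := by linarith
  have h2y : 2 * y ≤ C := by
    have h1 : (R : ℝ) * (18 + 5 * Real.log R) ≤ 256 * (R : ℝ) ^ 3 := by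
      have h2 : (R : ℝ) ^ 2 ≤ (R : ℝ) ^ 3 := pow_le_pow_right₀ hRr (by norm_num)
      nlinarith
    linarith
  set Q := ⌊C / y⌋₊ with hQ
  have hCy : 2 ≤ C / y := by rw [le_div_iff₀ hypos]; exact h2y
  have hQ1 : (Q : ℝ) ≤ C / y := Nat.floor_le (by positivity)
  have hQ2 : C / y < Q + 1 := Nat.lt_floor_add_one _
  have hQpos : 0 < Q := by
    rw [hQ, Nat.floor_pos]; linarith
  have hQr : (0 : ℝ) < Q := by exact_mod_cast hQpos
  have hCQ : C * (1 / Q) ≤ 2 * y := by
    rw [mul_one_div, div_le_iff₀ hQr]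
    have h1 : C / y ≤ 2 * Q := by
      have : (1 : ℝ) ≤ Q := by exact_mod_cast hQpos
      linarith
    rw [div_le_iff₀ hypos] at h1
    linarith
  have hQinv : y / C ≤ 1 / Q := by
    rw [div_le_div_iff₀ hCpos hQr, one_mul]
    rw [le_div_iff₀ hypos] at hQ1
    linarith
  -- the choose ratio
  have hratio : (0.4 : ℝ) * C ≤ (t - a).choose R := by
    have hfac : (0 : ℝ) < R.factorial := by exact_mod_cast Nat.factorial_pos R
    have h1 : ((t - a + 1 - R : ℕ) : ℝ) ^ R ≤ (t - a).choose R * R.factorial := by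
      have h2 := Nat.pow_sub_le_descFactorial (t - a) R
      rw [Nat.descFactorial_eq_factorial_mul_choose, mul_comm] at h2
      exact_mod_cast h2
    have h3 : C * R.factorial ≤ ((t : ℝ) + R) ^ R := by
      have h4 := Nat.descFactorial_le_pow (t + R) R
      rw [Nat.descFactorial_eq_factorial_mul_choose, mul_comm] at h4
      rw [hC]; exact_mod_cast h4
    set u : ℝ := ((a : ℝ) + 2 * R) / (t + R) with hu
    have hden : (0 : ℝ) < (t : ℝ) + R := by linarith
    have hu1 : 1 - u ≤ ((t - a + 1 - R : ℕ) : ℝ) / (t + R) := by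
      rw [hu, le_div_iff₀ hden]
      have h5 : ((t - a + 1 - R : ℕ) : ℝ) = (t : ℝ) - a + 1 - R := by
        rw [Nat.cast_sub (by omega), Nat.cast_add, Nat.cast_sub (by omega)]
        push_cast; ring
      rw [h5, sub_mul, div_mul_cancel₀ _ hden.ne']
      linarith
    have hRu : (R : ℝ) * u ≤ 0.6 := by
      rw [hu, ← mul_div_assoc, div_le_iff₀ hden]
      have h6 : (R : ℝ) * a ≤ t / 2 + R := by
        have h7 := mul_le_mul_of_nonneg_left ha2 (by positivity : (0 : ℝ) ≤ R)
        have h8 : (R : ℝ) * (t / (2 * R) + 1) = t / 2 + R := by field_simp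
        linarith
      have h9 : (R : ℝ) ^ 2 ≤ (R : ℝ) ^ 3 := pow_le_pow_right₀ hRr (by norm_num)
      nlinarith
    have hu0 : 0 ≤ u := by rw [hu]; positivity
    have hu2 : u ≤ 1 := by nlinarith
    have hb : (0.4 : ℝ) ≤ (1 - u) ^ R := by
      have h10 := one_add_mul_le_pow (a := -u) (by linarith) R
      have h11 : 1 + (R : ℝ) * -u = 1 - R * u := by ring
      have h12 : (1 + -u) ^ R = (1 - u) ^ R := by ring
      rw [h11, h12] at h10
      linarith
    have h13 : (1 - u) ^ R ≤ (((t - a + 1 - R : ℕ) : ℝ) / (t + R)) ^ R :=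
      pow_le_pow_left₀ (by linarith) hu1 R
    rw [div_pow] at h13
    have h14 : (0 : ℝ) < ((t : ℝ) + R) ^ R := by positivity
    have h15 : (0.4 : ℝ) * ((t : ℝ) + R) ^ R ≤ ((t - a + 1 - R : ℕ) : ℝ) ^ R := by
      have := hb.trans h13
      rwa [le_div_iff₀ h14] at this
    have h16 : (0.4 : ℝ) * C * R.factorial ≤ (t - a).choose R * R.factorial := by nlinarith
    exact le_of_mul_le_mul_right h16 hfac
  -- fourth term
  have hD : 0 < 8 * R := by omega
  have hT4 : muR R * ((8 * R : ℕ) : ℝ) ^ R * (1 - 1 / (Q : ℝ)) ^ ((t - a).choose R)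
      ≤ muR R / 4 := by
    have hmu : 0 ≤ muR R := by
      unfold muR
      have := logR1 R hR
      positivity
    have h1 : (1 - 1 / (Q : ℝ)) ^ ((t - a).choose R) ≤ Real.exp (-(0.4 * y)) := by
      have h2 : 1 - 1 / (Q : ℝ) ≤ Real.exp (-(y / C)) := by
        have := Real.one_sub_le_exp_neg (y / C)
        linarith
      have h3 : (0 : ℝ) ≤ 1 - 1 / (Q : ℝ) := by
        rw [sub_nonneg, div_le_one hQr]; exact_mod_cast hQpos
      calc (1 - 1 / (Q : ℝ)) ^ ((t - a).choose R)
          ≤ (Real.exp (-(y / C))) ^ ((t - a).choose R) := pow_le_pow_left₀ h3 h2 _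
        _ = Real.exp (((t - a).choose R : ℝ) * (-(y / C))) := by rw [← Real.exp_nat_mul]
        _ ≤ Real.exp (-(0.4 * y)) := by
            apply Real.exp_le_exp.2
            have h4 : (0.4 * C) * (y / C) ≤ ((t - a).choose R : ℝ) * (y / C) :=
              mul_le_mul_of_nonneg_right hratio (by positivity)
            have h5 : (0.4 * C) * (y / C) = 0.4 * y := by field_simp
            linarith
    have h6 : ((8 * R : ℕ) : ℝ) ^ R = Real.exp (R * Real.log (8 * R)) := by
      push_cast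
      rw [mul_comm (R : ℝ) (Real.log _), ← Real.rpow_def_of_pos (by positivity),
        Real.rpow_natCast]
    have h7 : ((8 * R : ℕ) : ℝ) ^ R * (1 - 1 / (Q : ℝ)) ^ ((t - a).choose R) ≤ 1 / 4 := by
      calc ((8 * R : ℕ) : ℝ) ^ R * (1 - 1 / (Q : ℝ)) ^ ((t - a).choose R)
          ≤ ((8 * R : ℕ) : ℝ) ^ R * Real.exp (-(0.4 * y)) :=
            mul_le_mul_of_nonneg_left h1 (by positivity)
        _ = Real.exp (-Real.log 4) := by
            rw [h6, ← Real.exp_add]
            congr 1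
            rw [hy]; ring
        _ = 1 / 4 := by rw [Real.exp_neg, Real.exp_log (by norm_num)]; norm_num
    calc muR R * ((8 * R : ℕ) : ℝ) ^ R * (1 - 1 / (Q : ℝ)) ^ ((t - a).choose R)
        = muR R * (((8 * R : ℕ) : ℝ) ^ R * (1 - 1 / (Q : ℝ)) ^ ((t - a).choose R)) := by ring
      _ ≤ muR R * (1 / 4) := mul_le_mul_of_nonneg_left h7 hmu
      _ = muR R / 4 := by ring
  have hkey := key_t R t hR ht
  have hC2t : C ≤ (2 * (t : ℝ)) ^ R := by
    have h1 : (t + R).choose R ≤ (2 * t) ^ R :=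
      (Nat.choose_le_pow _ _).trans (Nat.pow_le_pow_left (by omega) _)
    rw [hC]; exact_mod_cast h1
  have hexp2t : (2 * (t : ℝ)) ^ R = Real.exp (R * Real.log (2 * t)) := by
    rw [mul_comm (R : ℝ) (Real.log _), ← Real.rpow_def_of_pos (by positivity), Real.rpow_natCast]
  have hlog2t : 0 ≤ Real.log (2 * t) := Real.log_nonneg (by linarith)
  -- second term
  have hT2 : C * (t.choose (t + 1 - R) * (1 - 1 / ((8 * R : ℕ) : ℝ)) ^ (t + 1 - R)) ≤ 1 := by
    have h1 : (t.choose (t + 1 - R) : ℝ) ≤ (2 * (t : ℝ)) ^ R := by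
      have h2 : t.choose (t + 1 - R) ≤ (2 * t) ^ R := by
        have h3 : t + 1 - R = t - (R - 1) := by omega
        rw [h3, Nat.choose_symm (by omega)]
        calc t.choose (R - 1) ≤ t ^ (R - 1) := Nat.choose_le_pow _ _
          _ ≤ (2 * t) ^ (R - 1) := Nat.pow_le_pow_left (by omega) _
          _ ≤ (2 * t) ^ R := Nat.pow_le_pow_right (by omega) (by omega)
      exact_mod_cast h2
    have h4 : (1 - 1 / ((8 * R : ℕ) : ℝ)) ^ (t + 1 - R) ≤
        Real.exp (-(((t : ℝ) + 1 - R) / (8 * R))) := by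
      have h5 : 1 - 1 / ((8 * R : ℕ) : ℝ) ≤ Real.exp (-(1 / ((8 * R : ℕ) : ℝ))) :=
        Real.one_sub_le_exp_neg _
      have h6 : (0 : ℝ) ≤ 1 - 1 / ((8 * R : ℕ) : ℝ) := by
        rw [sub_nonneg, div_le_one (by positivity)]; exact_mod_cast hD
      calc (1 - 1 / ((8 * R : ℕ) : ℝ)) ^ (t + 1 - R)
          ≤ (Real.exp (-(1 / ((8 * R : ℕ) : ℝ)))) ^ (t + 1 - R) := pow_le_pow_left₀ h6 h5 _
        _ = Real.exp (((t + 1 - R : ℕ) : ℝ) * (-(1 / ((8 * R : ℕ) : ℝ)))) := by
            rw [← Real.exp_nat_mul]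
        _ = Real.exp (-(((t : ℝ) + 1 - R) / (8 * R))) := by
            congr 1
            rw [Nat.cast_sub (by omega)]
            push_cast
            ring
    calc C * (t.choose (t + 1 - R) * (1 - 1 / ((8 * R : ℕ) : ℝ)) ^ (t + 1 - R))
        ≤ (2 * (t : ℝ)) ^ R * ((2 * (t : ℝ)) ^ R * Real.exp (-(((t : ℝ) + 1 - R) / (8 * R)))) := by
          refine mul_le_mul hC2t (mul_le_mul h1 h4 ?_ (by positivity)) ?_ (by positivity)
          · have h6 : (0 : ℝ) ≤ 1 - 1 / ((8 * R : ℕ) : ℝ) := by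
              rw [sub_nonneg, div_le_one (by positivity)]; exact_mod_cast hD
            positivity
          · have h6 : (0 : ℝ) ≤ 1 - 1 / ((8 * R : ℕ) : ℝ) := by
              rw [sub_nonneg, div_le_one (by positivity)]; exact_mod_cast hD
            positivity
      _ = Real.exp (R * Real.log (2 * t) + (R * Real.log (2 * t) +
            -(((t : ℝ) + 1 - R) / (8 * R)))) := by
          rw [hexp2t, Real.exp_add, Real.exp_add]
      _ ≤ 1 := by
          rw [Real.exp_le_one_iff]
          have h7 : ((t : ℝ) + 1 - R) / (8 * R) ≥ (16 * (R : ℝ) ^ 2 * Real.log (2 * t)) / (8 * R) := by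
            apply div_le_div_of_nonneg_right _ (by positivity)
            linarith
          have h8 : (16 * (R : ℝ) ^ 2 * Real.log (2 * t)) / (8 * R) = 2 * (R * Real.log (2 * t)) := by
            field_simp; ring
          linarith
  -- third term
  have hT3 : C * (t.choose a * (1 / ((8 * R : ℕ) : ℝ)) ^ a) ≤ 1 := by
    have hapos : (0 : ℝ) < a := by
      have : (0 : ℝ) < (t : ℝ) / (2 * R) := by positivity
      linarith
    have h1 : (t.choose a : ℝ) * (1 / ((8 * R : ℕ) : ℝ)) ^ a ≤ Real.exp (-(t / (8 * R))) := by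
      have h2 : (t.choose a : ℝ) ≤ (t : ℝ) ^ a / a.factorial := Nat.choose_le_pow_div a t
      have h3 : (a : ℝ) ^ a / a.factorial ≤ Real.exp a := Real.pow_div_factorial_le_exp a hapos.le a
      have h4 : (t : ℝ) / (a * (8 * R)) ≤ 1 / 4 := by
        rw [div_le_div_iff₀ (by positivity) (by norm_num)]
        rw [div_le_iff₀ (by positivity)] at ha1
        linarith
      have h5 : Real.exp (1 + 1 / 4) ≤ 4 := by
        rw [← Real.le_log_iff_exp_le (by norm_num), hlog4]; linarith
      calc (t.choose a : ℝ) * (1 / ((8 * R : ℕ) : ℝ)) ^ a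
          ≤ ((t : ℝ) ^ a / a.factorial) * (1 / ((8 * R : ℕ) : ℝ)) ^ a :=
            mul_le_mul_of_nonneg_right h2 (by positivity)
        _ = ((t : ℝ) / (a * (8 * R))) ^ a * ((a : ℝ) ^ a / a.factorial) := by
            push_cast
            have e1 : ((t : ℝ) / (a * (8 * R))) ^ a = (t : ℝ) ^ a / ((a : ℝ) ^ a * (8 * R) ^ a) := by
              rw [div_pow, mul_pow]
            have e2 : (1 / (8 * (R : ℝ))) ^ a = 1 / (8 * R) ^ a := by rw [div_pow, one_pow]
            rw [e1, e2]
            have e3 : (a : ℝ) ^ a ≠ 0 := by positivity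
            field_simp
        _ ≤ (1 / 4) ^ a * Real.exp a := by
            refine mul_le_mul (pow_le_pow_left₀ (by positivity) h4 a) h3 (by positivity)
              (by positivity)
        _ = (1 / 4 * Real.exp 1) ^ a := by
            rw [mul_pow, ← Real.exp_nat_mul, mul_one]
        _ ≤ (Real.exp (-(1 / 4))) ^ a := by
            apply pow_le_pow_left₀ (by positivity)
            rw [Real.exp_add] at h5
            have h6 : Real.exp (-(1 / 4)) * Real.exp (1 / 4) = 1 := by
              rw [← Real.exp_add]; simp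
            have h7 : 0 < Real.exp (-(1 / 4) : ℝ) := Real.exp_pos _
            have h8 : 0 < Real.exp (1 / 4 : ℝ) := Real.exp_pos _
            have h9 : 1 / 4 * Real.exp 1 * Real.exp (1 / 4) ≤ 1 := by linarith
            have h10 : 1 / 4 * Real.exp 1 * Real.exp (1 / 4) ≤
                Real.exp (-(1 / 4)) * Real.exp (1 / 4) := by rw [h6]; exact h9
            exact le_of_mul_le_mul_right h10 h8
        _ = Real.exp (a * (-(1 / 4))) := by rw [← Real.exp_nat_mul]
        _ ≤ Real.exp (-(t / (8 * R))) := by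
            apply Real.exp_le_exp.2
            have h10 : (t : ℝ) / (8 * R) = (t / (2 * R)) * (1 / 4) := by
              field_simp; norm_num
            rw [h10]; linarith
    calc C * (t.choose a * (1 / ((8 * R : ℕ) : ℝ)) ^ a)
        ≤ (2 * (t : ℝ)) ^ R * Real.exp (-(t / (8 * R))) :=
          mul_le_mul hC2t h1 (by positivity) (by positivity)
      _ = Real.exp (R * Real.log (2 * t) + -(t / (8 * R))) := by rw [hexp2t, Real.exp_add]
      _ ≤ 1 := by
          rw [Real.exp_le_one_iff]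
          have h7 : (t : ℝ) / (8 * R) ≥ (16 * (R : ℝ) ^ 2 * Real.log (2 * t)) / (8 * R) := by
            apply div_le_div_of_nonneg_right _ (by positivity)
            linarith
          have h8 : (16 * (R : ℝ) ^ 2 * Real.log (2 * t)) / (8 * R) = 2 * (R * Real.log (2 * t)) := by
            field_simp; ring
          have h9 : 0 ≤ (R : ℝ) * Real.log (2 * t) := by positivity
          linarith
  -- conclusion
  have hmu0 : 0 ≤ muR R := by
    unfold muR
    have := logR1 R hR
    positivity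
  have hrec := recursion R a t (8 * R) Q hR (by omega) hD hQpos (muR R) hmu0
    (fun x hx => IH x (by omega))
  refine P_mono hrec ?_
  rw [← hC]
  have hmu : 2 * y + 2 ≤ 3 / 4 * muR R := by
    unfold muR
    have h1 := logR1 R hR
    have h2 := logR_le R hR
    nlinarith
  have hsum : C * (1 / (Q : ℝ) + t.choose (t + 1 - R) * (1 - 1 / ((8 * R : ℕ) : ℝ)) ^ (t + 1 - R)
        + t.choose a * (1 / ((8 * R : ℕ) : ℝ)) ^ a) =
      C * (1 / (Q : ℝ)) + C * (t.choose (t + 1 - R) * (1 - 1 / ((8 * R : ℕ) : ℝ)) ^ (t + 1 - R))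
        + C * (t.choose a * (1 / ((8 * R : ℕ) : ℝ)) ^ a) := by ring
  rw [hsum]
  linarith

theorem P_all (R t : ℕ) (hR : 1 ≤ R) : P R t (muR R) := by
  induction t using Nat.strong_induction_on with
  | _ t IH =>
    have hRr : (1 : ℝ) ≤ R := by exact_mod_cast hR
    have h1 := logR1 R hR
    rcases Nat.lt_or_ge t (256 * R ^ 3) with h | h
    · rcases Nat.lt_or_ge t 2 with h2 | h2
      · have hmu : (R : ℝ) + 1 ≤ muR R := by unfold muR; nlinarith
        interval_cases t
        · exact P_mono (P_zero R) (by linarith)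
        · exact P_mono (P_one R) hmu
      · exact P_mono (P_base R t hR h2) (small_case R t hR (by omega) h)
    · exact large_case R t hR h IH

end Pool.Agent.H279R2.Tur
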